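import Mathlib

set_option autoImplicit false

namespace Pool.Agent.MP_2c8680_an.H64

/-- Vertices of the tiling: `(false, m, k)` is `A + m u + k w`, `(true, m, k)` is `B + m u + k w`. -/
abbrev V := Bool × ℤ × ℤ

/-- Lattice displacement of the four edges leaving an even vertex. -/
def dl (τ : Fin 4) : ℤ × ℤ := ![(0, 0), (1, 0), (1, -1), (0, -1)] τ

/-- Directed edges, from even to odd vertices. -/
def E (x z : V) : Prop := ∃ (τ : Fin 4) (g : ℤ × ℤ), x = (false, g) ∧ z = (true, g + dl τ)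

def Adj (x z : V) : Prop := E x z ∨ E z x

lemma Adj.symm {x z : V} (h : Adj x z) : Adj z x := Or.symm h

/-- Affine height function on vertices. -/
noncomputable def Th (A B D : ℝ) (v : V) : ℝ :=
  -(v.2.1 : ℝ) * (A + B) + (v.2.2 : ℝ) * (A + D) + (if v.1 then A else 0)

def inc (A B D : ℝ) (τ : Fin 4) : ℝ := ![A, -B, -(A + B + D), -D] τ

lemma Th_step (A B D : ℝ) (τ : Fin 4) (g : ℤ × ℤ) :
    Th A B D (true, g + dl τ) = Th A B D (false, g) + inc A B D τ := by
  fin_cases τ <;> simp [Th, dl, inc] <;> ring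

/-- Paths in the grid all of whose vertices lie in `W`. -/
def Path (W : Set V) : V → V → Prop :=
  Relation.ReflTransGen (fun x z => Adj x z ∧ x ∈ W ∧ z ∈ W)

lemma Path.refl (W : Set V) (x : V) : Path W x x := Relation.ReflTransGen.refl

lemma Path.trans {W : Set V} {x y z : V} (h1 : Path W x y) (h2 : Path W y z) : Path W x z :=
  Relation.ReflTransGen.trans h1 h2

lemma Path.single {W : Set V} {x z : V} (h : Adj x z) (hx : x ∈ W) (hz : z ∈ W) : Path W x z :=
  Relation.ReflTransGen.single ⟨h, hx, hz⟩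

lemma Path.symm {W : Set V} {x z : V} (h : Path W x z) : Path W z x := by
  induction h with
  | refl => exact Path.refl _ _
  | tail _ h2 ih => exact (Path.single h2.1.symm h2.2.2 h2.2.1).trans ih

lemma Path.mono {W W' : Set V} (hW : W ⊆ W') {x z : V} (h : Path W x z) : Path W' x z := by
  induction h with
  | refl => exact Path.refl _ _
  | tail _ h2 ih => exact ih.trans (Path.single h2.1 (hW h2.2.1) (hW h2.2.2))

lemma Path.mem {W : Set V} {x z : V} (h : Path W x z) (hx : x ∈ W) : z ∈ W := by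
  induction h with
  | refl => exact hx
  | tail _ h2 _ => exact h2.2.2

lemma Path.const {α : Type*} {W : Set V} (f : V → α)
    (hf : ∀ x z, E x z → x ∈ W → z ∈ W → f x = f z) {x z : V} (h : Path W x z) : f x = f z := by
  induction h with
  | refl => rfl
  | tail _ h2 ih =>
    rw [ih]
    rcases h2.1 with h | h
    · exact hf _ _ h h2.2.1 h2.2.2
    · exact (hf _ _ h h2.2.2 h2.2.1).symm

lemma extreme {S : Set V} (hS : S.Finite) (hne : S.Nonempty) (f : V → ℝ)
    (hf : ∀ x, ∃ z, Adj x z ∧ f x < f z) :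
    ∃ x ∈ S, ∃ z, z ∉ S ∧ Adj x z ∧ ∀ v ∈ S, f v < f z := by
  obtain ⟨x, hx, hmax⟩ := Set.exists_max_image S f hS hne
  obtain ⟨z, hz, hlt⟩ := hf x
  refine ⟨x, hx, z, fun hzS => ?_, hz, fun v hv => (hmax v hv).trans_lt hlt⟩
  exact absurd (hmax z hzS) (not_le.mpr hlt)

lemma up_nb (A B D : ℝ) (h1 : ∃ τ, 0 < inc A B D τ) (h2 : ∃ τ, inc A B D τ < 0) (x : V) :
    ∃ z, Adj x z ∧ Th A B D x < Th A B D z := by
  obtain ⟨π, g⟩ := x
  cases π
  · obtain ⟨τ, hτ⟩ := h1
    refine ⟨(true, g + dl τ), Or.inl ⟨τ, g, rfl, rfl⟩, ?_⟩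
    rw [Th_step]; linarith
  · obtain ⟨τ, hτ⟩ := h2
    refine ⟨(false, g - dl τ), Or.inr ⟨τ, g - dl τ, rfl, by simp⟩, ?_⟩
    have := Th_step A B D τ (g - dl τ)
    rw [sub_add_cancel] at this
    rw [this]; linarith

lemma down_nb (A B D : ℝ) (h1 : ∃ τ, 0 < inc A B D τ) (h2 : ∃ τ, inc A B D τ < 0) (x : V) :
    ∃ z, Adj x z ∧ -Th A B D x < -Th A B D z := by
  obtain ⟨π, g⟩ := x
  cases π
  · obtain ⟨τ, hτ⟩ := h2
    refine ⟨(true, g + dl τ), Or.inl ⟨τ, g, rfl, rfl⟩, ?_⟩
    rw [Th_step]; linarith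
  · obtain ⟨τ, hτ⟩ := h1
    refine ⟨(false, g - dl τ), Or.inr ⟨τ, g - dl τ, rfl, by simp⟩, ?_⟩
    have := Th_step A B D τ (g - dl τ)
    rw [sub_add_cancel] at this
    rw [this]; linarith

lemma eq_of_cong {P s t : ℝ} (n : ℤ) (h : s = t + n * P) (hlt : |s - t| < P) : s = t := by
  have hP : 0 < P := (abs_nonneg _).trans_lt hlt
  have h1 : |(n : ℝ)| * P < 1 * P := by
    have : s - t = n * P := by linarith
    rw [this, abs_mul, abs_of_pos hP] at hlt
    linarith
  have h2 : |(n : ℝ)| < 1 := lt_of_mul_lt_mul_right h1 hP.le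
  have h3 : |n| < 1 := by exact_mod_cast h2
  have h4 : n = 0 := by
    rcases abs_lt.mp h3 with ⟨h5, h6⟩
    omega
  rw [h, h4]; simp

open Classical in
/-- Number of vertices of `F` of parity `π` with height in `J`. -/
noncomputable def cnt (F : Finset V) (y : V → ℝ) (π : Bool) (J : Set ℝ) : ℤ :=
  ((F.filter (fun v => v.1 = π ∧ y v ∈ J)).card : ℤ)

lemma cnt_split (F : Finset V) (y : V → ℝ) (π : Bool) (J J' : Set ℝ) (h : J' ⊆ J) :
    cnt F y π J = cnt F y π J' + cnt F y π (J \ J') := by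
  classical
  unfold cnt
  rw [← Nat.cast_add, ← Finset.card_union_of_disjoint]
  · congr 2
    ext v
    simp only [Finset.mem_filter, Finset.mem_union, Set.mem_sdiff]
    constructor
    · rintro ⟨h1, h2, h3⟩
      by_cases h4 : y v ∈ J'
      · exact Or.inl ⟨h1, h2, h4⟩
      · exact Or.inr ⟨h1, h2, h3, h4⟩
    · rintro (⟨h1, h2, h3⟩ | ⟨h1, h2, h3, _⟩)
      · exact ⟨h1, h2, h h3⟩
      · exact ⟨h1, h2, h3⟩
  · rw [Finset.disjoint_left]
    intro v h1 h2
    simp only [Finset.mem_filter, Set.mem_sdiff] at h1 h2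
    exact h2.2.2.2 h1.2.2

lemma cnt_pos (F : Finset V) (y : V → ℝ) (π : Bool) (J : Set ℝ) :
    0 < cnt F y π J ↔ ∃ v ∈ F, v.1 = π ∧ y v ∈ J := by
  unfold cnt
  rw [Nat.cast_pos, Finset.card_pos]
  simp [Finset.filter_nonempty_iff]

section hole

variable {a b d P q r θ0 : ℝ} {y : V → ℝ} {F : Finset V}

lemma edge_cong (hyc : ∀ v, ∃ n : ℤ, y v = θ0 + Th a b d v + n * P) (τ : Fin 4) (g : ℤ × ℤ) :
    ∃ n : ℤ, y (true, g + dl τ) - y (false, g) = inc a b d τ + n * P := by
  obtain ⟨n1, h1⟩ := hyc (true, g + dl τ)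
  obtain ⟨n2, h2⟩ := hyc (false, g)
  refine ⟨n1 - n2, ?_⟩
  rw [h1, h2, Th_step]; push_cast; ring

lemma shift (hy : ∀ v, q ≤ y v ∧ y v ≤ q + P)
    (hyc : ∀ v, ∃ n : ℤ, y v = θ0 + Th a b d v + n * P) (hr : r ≤ q + P)
    (hF : ∀ v ∈ F, q < y v ∧ y v < r)
    (hcl : ∀ v ∈ F, ∀ z, Adj v z → q < y z → y z < r → z ∈ F)
    (τ : Fin 4) (s : ℝ) (n : ℤ) (hs : s = inc a b d τ + n * P) (J : Set ℝ)
    (hJ : ∀ t ∈ J, ∀ t' ≤ t, t' ∈ J) (hJr : ∀ t ∈ J, t < r ∧ t + s < r) (hq : q ∈ J)
    (hqs : q - s ∈ J) :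
    cnt F y true {t | t - s ∈ J} - cnt F y false J =
      cnt F y true (Set.Iic (q + s)) - cnt F y false (Set.Iic (q - s)) := by
  classical
  rw [cnt_split F y true {t | t - s ∈ J} (Set.Iic (q + s))
      (fun t ht => hJ q hq _ (by simp only [Set.mem_Iic] at ht; linarith)),
    cnt_split F y false J (Set.Iic (q - s)) (fun t ht => hJ _ hqs _ ht)]
  have key : cnt F y false (J \ Set.Iic (q - s)) =
      cnt F y true ({t | t - s ∈ J} \ Set.Iic (q + s)) := by
    unfold cnt
    congr 1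
    apply Finset.card_nbij' (fun v : V => ((true, v.2 + dl τ) : V))
      (fun v : V => ((false, v.2 - dl τ) : V))
    · rintro ⟨π, g⟩ hv
      simp only [Finset.coe_filter, Set.mem_sdiff, Set.mem_Iic, not_le, Set.mem_ofPred_eq] at hv ⊢
      obtain ⟨h1, rfl, h3, h4⟩ := hv
      obtain ⟨m, hm⟩ := edge_cong hyc τ g
      have h5 := hF _ h1
      have h6 := hJr _ h3
      have h7 := hy (true, g + dl τ)
      have h8 : y (true, g + dl τ) = y (false, g) + s := by
        apply eq_of_cong (P := P) (m - n)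
        · rw [hs]; push_cast; linarith
        · rw [abs_lt]; constructor <;> linarith [h5.1, h5.2, h6.1, h6.2, h7.1, h7.2]
      refine ⟨hcl _ h1 _ (Or.inl ⟨τ, g, rfl, rfl⟩) (by linarith) (by linarith), trivial, ?_,
        by linarith⟩
      rw [h8]; simpa using h3
    · rintro ⟨π, g⟩ hv
      simp only [Finset.coe_filter, Set.mem_sdiff, Set.mem_Iic, not_le, Set.mem_ofPred_eq] at hv ⊢
      obtain ⟨h1, rfl, h3, h4⟩ := hv
      obtain ⟨m, hm⟩ := edge_cong hyc τ (g - dl τ)
      rw [sub_add_cancel] at hm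
      have h5 := hF _ h1
      have h6 := hJr _ h3
      have h7 := hy (false, g - dl τ)
      have h8 : y (false, g - dl τ) = y (true, g) - s := by
        apply eq_of_cong (P := P) (n - m)
        · rw [hs]; push_cast; linarith
        · rw [abs_lt]; constructor <;> linarith [h5.1, h5.2, h6.1, h6.2, h7.1, h7.2]
      refine ⟨hcl _ h1 _ (Or.inr ⟨τ, g - dl τ, rfl, by simp⟩) (by linarith) (by linarith),
        trivial, ?_, by linarith⟩
      rw [h8]; exact h3
    · rintro ⟨π, g⟩ hv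
      simp only [Finset.coe_filter, Set.mem_ofPred_eq] at hv
      obtain ⟨_, rfl, _⟩ := hv
      simp
    · rintro ⟨π, g⟩ hv
      simp only [Finset.coe_filter, Set.mem_ofPred_eq] at hv
      obtain ⟨_, rfl, _⟩ := hv
      simp
  rw [key]; ring

/-- The constant of the shift lemma. -/
noncomputable def kap (F : Finset V) (y : V → ℝ) (q s : ℝ) : ℤ :=
  cnt F y true (Set.Iic (q + s)) - cnt F y false (Set.Iic (q - s))

lemma shift_le (hy : ∀ v, q ≤ y v ∧ y v ≤ q + P)
    (hyc : ∀ v, ∃ n : ℤ, y v = θ0 + Th a b d v + n * P) (hr : r ≤ q + P)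
    (hF : ∀ v ∈ F, q < y v ∧ y v < r)
    (hcl : ∀ v ∈ F, ∀ z, Adj v z → q < y z → y z < r → z ∈ F)
    (τ : Fin 4) (s : ℝ) (n : ℤ) (hs : s = inc a b d τ + n * P) (u u' : ℝ) (hu : u' = u + s)
    (h1 : q ≤ u) (h2 : u < r) (h3 : q ≤ u') (h4 : u' < r) :
    cnt F y true (Set.Iic u') - cnt F y false (Set.Iic u) = kap F y q s := by
  have := shift hy hyc hr hF hcl τ s n hs (Set.Iic u)
    (fun t ht t' ht' => le_trans ht' ht)
    (fun t ht => by simp only [Set.mem_Iic] at ht; constructor <;> linarith) h1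
    (by simp only [Set.mem_Iic]; linarith)
  have h5 : {t | t - s ∈ Set.Iic u} = Set.Iic u' := by
    ext t; simp only [Set.mem_Iic, Set.mem_ofPred_eq]; constructor <;> intro h <;> linarith
  rw [h5] at this
  exact this

lemma shift_lt (hy : ∀ v, q ≤ y v ∧ y v ≤ q + P)
    (hyc : ∀ v, ∃ n : ℤ, y v = θ0 + Th a b d v + n * P) (hr : r ≤ q + P)
    (hF : ∀ v ∈ F, q < y v ∧ y v < r)
    (hcl : ∀ v ∈ F, ∀ z, Adj v z → q < y z → y z < r → z ∈ F)
    (τ : Fin 4) (s : ℝ) (n : ℤ) (hs : s = inc a b d τ + n * P) (u u' : ℝ) (hu : u' = u + s)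
    (h1 : q < u) (h2 : u ≤ r) (h3 : q < u') (h4 : u' ≤ r) :
    cnt F y true (Set.Iio u') - cnt F y false (Set.Iio u) = kap F y q s := by
  have := shift hy hyc hr hF hcl τ s n hs (Set.Iio u)
    (fun t ht t' ht' => lt_of_le_of_lt ht' ht)
    (fun t ht => by simp only [Set.mem_Iio] at ht; constructor <;> linarith) h1
    (by simp only [Set.mem_Iio]; linarith)
  have h5 : {t | t - s ∈ Set.Iio u} = Set.Iio u' := by
    ext t; simp only [Set.mem_Iio, Set.mem_ofPred_eq]; constructor <;> intro h <;> linarith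
  rw [h5] at this
  exact this

lemma int_two {x P : ℝ} (h0 : 0 < x) (h1 : x < P) (n : ℤ) (h : |x + n * P| < P) :
    n = 0 ∨ n = -1 := by
  have hP : 0 < P := h0.trans h1
  rcases abs_lt.mp h with ⟨h2, h3⟩
  have h4 : (n : ℝ) < 1 := by
    by_contra hc
    push Not at hc
    nlinarith
  have h5 : (-2 : ℝ) < n := by
    by_contra hc
    push Not at hc
    nlinarith
  have h6 : n < 1 := by exact_mod_cast h4
  have h7 : -2 < n := by exact_mod_cast h5
  omega

lemma kap_eq {c : ℝ} (ha : 0 < a) (hb : 0 < b) (hc : 0 < c) (hd : 0 < d) (hP : a + b + c + d = P)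
    (hy : ∀ v, q ≤ y v ∧ y v ≤ q + P)
    (hyc : ∀ v, ∃ n : ℤ, y v = θ0 + Th a b d v + n * P) (hr : r ≤ q + P)
    (hF : ∀ v ∈ F, q < y v ∧ y v < r)
    (hcl : ∀ v ∈ F, ∀ z, Adj v z → q < y z → y z < r → z ∈ F)
    (τ : Fin 4) (s : ℝ) (n : ℤ) (hs : s = inc a b d τ + n * P) (hlt : |s| < r - q) :
    (kap F y q s : ℝ) =
      inc (kap F y q a) (-kap F y q (-b)) (-kap F y q (-d)) τ +
        (kap F y q a - kap F y q (-b) + kap F y q c - kap F y q (-d) : ℝ) * n := by
  have hltP : |s| < P := by linarith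
  have Sa := shift_le hy hyc hr hF hcl 0 a 0 (by simp [inc])
  have Sb := shift_le hy hyc hr hF hcl 1 (-b) 0 (by simp [inc])
  have Sc := shift_le hy hyc hr hF hcl 2 c 1 (by simp [inc]; linarith)
  have Sd := shift_le hy hyc hr hF hcl 3 (-d) 0 (by simp [inc])
  have Ss := shift_le hy hyc hr hF hcl τ s n hs
  obtain ⟨hl1, hl2⟩ := abs_lt.mp hlt
  fin_cases τ
  · simp only [inc, Fin.zero_eta, Matrix.cons_val_zero] at hs ⊢
    rcases int_two (P := P) ha (by linarith) n (hs ▸ hltP) with rfl | rfl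
    · simp only [Int.cast_zero, zero_mul, add_zero] at hs
      simp [hs]
    · push_cast at hs ⊢
      have e1 := Sb (q + b) q (by ring) (by linarith) (by linarith) le_rfl (by linarith)
      have e2 := Sc (q + b) (q + b + c) rfl (by linarith) (by linarith) (by linarith) (by linarith)
      have e3 := Sd (q + b + c + d) (q + b + c) (by ring) (by linarith) (by linarith)
        (by linarith) (by linarith)
      have e4 := Ss (q + b + c + d) q (by linarith) (by linarith) (by linarith) le_rfl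
        (by linarith)
      have : kap F y q s = kap F y q (-b) - kap F y q c + kap F y q (-d) := by omega
      rw [this]; push_cast; ring
  · simp only [inc, Fin.mk_one, Matrix.cons_val_one, Matrix.cons_val_zero] at hs ⊢
    rcases int_two (P := P) hb (by linarith) (-n)
      (by rw [← abs_neg]; convert hltP using 2; rw [hs]; push_cast; ring) with h | h
    · have : n = 0 := by omega
      subst this
      simp only [Int.cast_zero, zero_mul, add_zero] at hs
      simp [hs]
    · have : n = 1 := by omega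
      subst this
      push_cast at hs ⊢
      have e1 := Sa q (q + a) rfl le_rfl (by linarith) (by linarith) (by linarith)
      have e2 := Sd (q + a + d) (q + a) (by ring) (by linarith) (by linarith) (by linarith)
        (by linarith)
      have e3 := Sc (q + a + d) (q + a + d + c) rfl (by linarith) (by linarith)
        (by linarith) (by linarith)
      have e4 := Ss q (q + a + d + c) (by linarith) le_rfl (by linarith) (by linarith)
        (by linarith)
      have : kap F y q s = kap F y q a + kap F y q c - kap F y q (-d) := by omega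
      rw [this]; push_cast; ring
  · simp only [inc, Fin.reduceFinMk, Matrix.cons_val] at hs ⊢
    rcases int_two (P := P) hc (by linarith) (n - 1)
      (by convert hltP using 2; rw [hs]; push_cast; linarith) with h | h
    · have : n = 1 := by omega
      subst this
      push_cast at hs ⊢
      have : s = c := by linarith
      rw [this]; ring
    · have : n = 0 := by omega
      subst this
      push_cast at hs ⊢
      have e1 := Sb (q + b) q (by ring) (by linarith) (by linarith) le_rfl (by linarith)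
      have e2 := Sa (q + b) (q + b + a) rfl (by linarith) (by linarith) (by linarith) (by linarith)
      have e3 := Sd (q + b + a + d) (q + b + a) (by ring) (by linarith) (by linarith)
        (by linarith) (by linarith)
      have e4 := Ss (q + b + a + d) q (by linarith) (by linarith) (by linarith) le_rfl
        (by linarith)
      have : kap F y q s = kap F y q (-b) - kap F y q a + kap F y q (-d) := by omega
      rw [this]; push_cast; ring
  · simp only [inc, Fin.reduceFinMk, Matrix.cons_val] at hs ⊢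
    rcases int_two (P := P) hd (by linarith) (-n)
      (by rw [← abs_neg]; convert hltP using 2; rw [hs]; push_cast; ring) with h | h
    · have : n = 0 := by omega
      subst this
      simp only [Int.cast_zero, zero_mul, add_zero] at hs
      simp [hs]
    · have : n = 1 := by omega
      subst this
      push_cast at hs ⊢
      have e1 := Sa q (q + a) rfl le_rfl (by linarith) (by linarith) (by linarith)
      have e2 := Sb (q + a + b) (q + a) (by ring) (by linarith) (by linarith) (by linarith)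
        (by linarith)
      have e3 := Sc (q + a + b) (q + a + b + c) rfl (by linarith) (by linarith)
        (by linarith) (by linarith)
      have e4 := Ss q (q + a + b + c) (by linarith) le_rfl (by linarith) (by linarith)
        (by linarith)
      have : kap F y q s = kap F y q a + kap F y q c - kap F y q (-b) := by omega
      rw [this]; push_cast; ring

/-- The potential. -/
noncomputable def Psi (F : Finset V) (y : V → ℝ) (q a b c d P : ℝ) (v : V) : ℝ :=
  Th (kap F y q a) (-kap F y q (-b)) (-kap F y q (-d)) v +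
    (kap F y q a - kap F y q (-b) + kap F y q c - kap F y q (-d) : ℝ) * ((y v - Th a b d v) / P)

lemma Psi_step {c : ℝ} (ha : 0 < a) (hb : 0 < b) (hc : 0 < c) (hd : 0 < d)
    (hP : a + b + c + d = P) (hy : ∀ v, q ≤ y v ∧ y v ≤ q + P)
    (hyc : ∀ v, ∃ n : ℤ, y v = θ0 + Th a b d v + n * P) (hr : r ≤ q + P)
    (hF : ∀ v ∈ F, q < y v ∧ y v < r)
    (hcl : ∀ v ∈ F, ∀ z, Adj v z → q < y z → y z < r → z ∈ F) (τ : Fin 4) (g : ℤ × ℤ)
    (hlt : |y (true, g + dl τ) - y (false, g)| < r - q) :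
    Psi F y q a b c d P (true, g + dl τ) - Psi F y q a b c d P (false, g) =
      kap F y q (y (true, g + dl τ) - y (false, g)) := by
  have hP0 : 0 < P := by linarith
  obtain ⟨n, hn⟩ := edge_cong hyc τ g
  rw [kap_eq ha hb hc hd hP hy hyc hr hF hcl τ _ n hn hlt]
  simp only [Psi, Th_step]
  have : y (true, g + dl τ) = y (false, g) + inc a b d τ + n * P := by linarith
  rw [this]
  field_simp
  ring

lemma const_lt {c : ℝ} (ha : 0 < a) (hb : 0 < b) (hc : 0 < c) (hd : 0 < d)
    (hP : a + b + c + d = P) (hy : ∀ v, q ≤ y v ∧ y v ≤ q + P)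
    (hyc : ∀ v, ∃ n : ℤ, y v = θ0 + Th a b d v + n * P) (hr : r ≤ q + P)
    (hF : ∀ v ∈ F, q < y v ∧ y v < r)
    (hcl : ∀ v ∈ F, ∀ z, Adj v z → q < y z → y z < r → z ∈ F) {x0 o : V}
    (h1 : Path {v | q < y v ∧ y v ≤ r} x0 o) :
    (cnt F y x0.1 (Set.Iio (y x0)) : ℝ) - Psi F y q a b c d P x0 =
      (cnt F y o.1 (Set.Iio (y o)) : ℝ) - Psi F y q a b c d P o :=
  Path.const (fun v => (cnt F y v.1 (Set.Iio (y v)) : ℝ) - Psi F y q a b c d P v) (by
    rintro x z ⟨τ, g, rfl, rfl⟩ hx hz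
    simp only [Set.mem_ofPred_eq] at hx hz
    obtain ⟨n, hn⟩ := edge_cong hyc τ g
    have e1 := shift_lt hy hyc hr hF hcl τ _ n hn (y (false, g)) (y (true, g + dl τ))
      (by ring) hx.1 hx.2 hz.1 hz.2
    have e2 := Psi_step ha hb hc hd hP hy hyc hr hF hcl τ g
      (by rw [abs_lt]; constructor <;> linarith [hx.1, hx.2, hz.1, hz.2])
    rw [← e1] at e2
    push_cast at e2
    simp only
    linarith) h1

lemma const_le {c : ℝ} (ha : 0 < a) (hb : 0 < b) (hc : 0 < c) (hd : 0 < d)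
    (hP : a + b + c + d = P) (hy : ∀ v, q ≤ y v ∧ y v ≤ q + P)
    (hyc : ∀ v, ∃ n : ℤ, y v = θ0 + Th a b d v + n * P) (hr : r ≤ q + P)
    (hF : ∀ v ∈ F, q < y v ∧ y v < r)
    (hcl : ∀ v ∈ F, ∀ z, Adj v z → q < y z → y z < r → z ∈ F) {x0 o : V}
    (h1 : Path {v | q ≤ y v ∧ y v < r} x0 o) :
    (cnt F y x0.1 (Set.Iic (y x0)) : ℝ) - Psi F y q a b c d P x0 =
      (cnt F y o.1 (Set.Iic (y o)) : ℝ) - Psi F y q a b c d P o :=
  Path.const (fun v => (cnt F y v.1 (Set.Iic (y v)) : ℝ) - Psi F y q a b c d P v) (by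
    rintro x z ⟨τ, g, rfl, rfl⟩ hx hz
    simp only [Set.mem_ofPred_eq] at hx hz
    obtain ⟨n, hn⟩ := edge_cong hyc τ g
    have e1 := shift_le hy hyc hr hF hcl τ _ n hn (y (false, g)) (y (true, g + dl τ))
      (by ring) hx.1 hx.2 hz.1 hz.2
    have e2 := Psi_step ha hb hc hd hP hy hyc hr hF hcl τ g
      (by rw [abs_lt]; constructor <;> linarith [hx.1, hx.2, hz.1, hz.2])
    rw [← e1] at e2
    push_cast at e2
    simp only
    linarith) h1

lemma cnt_congr {y y2 : V → ℝ} (h : ∀ v ∈ F, y2 v = y v) : cnt F y2 = cnt F y := by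
  funext π J
  unfold cnt
  congr 2
  ext v
  simp only [Finset.mem_filter]
  constructor
  · rintro ⟨h1, h2, h3⟩
    exact ⟨h1, h2, by rw [← h v h1]; exact h3⟩
  · rintro ⟨h1, h2, h3⟩
    exact ⟨h1, h2, by rw [h v h1]; exact h3⟩

theorem hole {c : ℝ} {y2 : V → ℝ} (ha : 0 < a) (hb : 0 < b) (hc : 0 < c) (hd : 0 < d)
    (hP : a + b + c + d = P)
    (hy : ∀ v, q ≤ y v ∧ y v ≤ q + P) (hy2 : ∀ v, q ≤ y2 v ∧ y2 v ≤ q + P)
    (hyc : ∀ v, ∃ n : ℤ, y v = θ0 + Th a b d v + n * P)
    (hyc2 : ∀ v, ∃ n : ℤ, y2 v = θ0 + Th a b d v + n * P) (hr : r ≤ q + P)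
    (hF : ∀ v ∈ F, q < y v ∧ y v < r) (hF2 : ∀ v ∈ F, y2 v = y v)
    (hcl : ∀ v ∈ F, ∀ z, Adj v z → q < y z → y z < r → z ∈ F)
    (hcl2 : ∀ v ∈ F, ∀ z, Adj v z → q < y2 z → y2 z < r → z ∈ F)
    (x0 : V) (hx0 : x0 ∈ F) (o : V) (ho : y2 o = y o)
    (h1 : Path {v | q < y2 v ∧ y2 v ≤ r} x0 o) (h2 : Path {v | q ≤ y v ∧ y v < r} x0 o) :
    ∃ x' ∈ F, x'.1 = o.1 ∧ y x' = y o := by
  have c1 := const_lt ha hb hc hd hP hy2 hyc2 hr (fun v hv => by rw [hF2 v hv]; exact hF v hv)
    hcl2 h1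
  have c2 := const_le ha hb hc hd hP hy hyc hr hF hcl h2
  simp only [Psi, kap, cnt_congr hF2, ho, hF2 x0 hx0] at c1 c2
  have s1 := cnt_split F y x0.1 (Set.Iic (y x0)) (Set.Iio (y x0)) Set.Iio_subset_Iic_self
  have s2 := cnt_split F y o.1 (Set.Iic (y o)) (Set.Iio (y o)) Set.Iio_subset_Iic_self
  have p1 : 0 < cnt F y x0.1 (Set.Iic (y x0) \ Set.Iio (y x0)) :=
    (cnt_pos _ _ _ _).mpr ⟨x0, hx0, rfl, by simp⟩
  have p2 : 0 < cnt F y o.1 (Set.Iic (y o) \ Set.Iio (y o)) := by
    have h3 : (cnt F y o.1 (Set.Iic (y o) \ Set.Iio (y o)) : ℝ) =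
        cnt F y x0.1 (Set.Iic (y x0) \ Set.Iio (y x0)) := by
      rw [s1, s2] at c2
      push_cast at c1 c2
      linarith
    have h4 : cnt F y o.1 (Set.Iic (y o) \ Set.Iio (y o)) =
        cnt F y x0.1 (Set.Iic (y x0) \ Set.Iio (y x0)) := by exact_mod_cast h3
    omega
  obtain ⟨x', h5, h6, h7⟩ := (cnt_pos _ _ _ _).mp p2
  simp only [Set.mem_sdiff, Set.mem_Iic, Set.mem_Iio, not_lt] at h7
  exact ⟨x', h5, h6, le_antisymm h7.1 h7.2⟩

end hole

end Pool.Agent.MP_2c8680_an.H64
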