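import Pool.Agent.MP_2c8680_an.H64.Core

set_option autoImplicit false

namespace Pool.Agent.MP_2c8680_an.H64

lemma Th_sub (A B D : ℝ) (π π' : Bool) (h g1 g2 : ℤ × ℤ) :
    Th A B D (π, h - (g1 - g2)) = Th A B D (π, h) - (Th A B D (π', g1) - Th A B D (π', g2)) := by
  simp only [Th, Prod.fst_sub, Prod.snd_sub]; push_cast; ring

lemma Adj.translate {x z : V} (h : Adj x z) (g : ℤ × ℤ) : Adj (x.1, x.2 - g) (z.1, z.2 - g) := by
  rcases h with ⟨τ, k, rfl, rfl⟩ | ⟨τ, k, rfl, rfl⟩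
  · exact Or.inl ⟨τ, k - g, rfl, by simp only [Prod.mk.injEq, true_and]; abel⟩
  · exact Or.inr ⟨τ, k - g, rfl, by simp only [Prod.mk.injEq, true_and]; abel⟩

lemma Path.translate {W : Set V} (g : ℤ × ℤ) (hW : ∀ v ∈ W, ((v.1, v.2 - g) : V) ∈ W) {x z : V}
    (h : Path W x z) : Path W (x.1, x.2 - g) (z.1, z.2 - g) := by
  induction h with
  | refl => exact Path.refl _ _
  | tail _ h2 ih => exact ih.trans (Path.single (h2.1.translate g) (hW _ h2.2.1) (hW _ h2.2.2))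

lemma X_pos : ∃ τ, 0 < inc 1 0 0 τ := ⟨0, by simp [inc]⟩
lemma X_neg : ∃ τ, inc 1 0 0 τ < 0 := ⟨2, by simp [inc]⟩

/-- One can leave `S` from `x0` avoiding heights in `J`. -/
def Esc (S : Set V) (y : V → ℝ) (x0 : V) (J : Set ℝ) : Prop :=
  ∃ x ∈ S, ∃ z, z ∉ S ∧ Adj x z ∧ y x ∉ J ∧ Path {v | v ∈ S ∧ y v ∉ J} x0 x

lemma Esc.mono {S : Set V} {y : V → ℝ} {x0 : V} {J J' : Set ℝ} (h : Esc S y x0 J)
    (hJ : ∀ v ∈ S, y v ∈ J' → y v ∈ J) : Esc S y x0 J' := by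
  obtain ⟨x, hx, z, hz, ha, hy, hp⟩ := h
  refine ⟨x, hx, z, hz, ha, fun h => hy (hJ x hx h), hp.mono ?_⟩
  intro v hv
  exact ⟨hv.1, fun h => hv.2 (hJ v hv.1 h)⟩

lemma esc_empty {S : Set V} (hS : S.Finite) (y : V → ℝ) {x0 : V} (hx0 : x0 ∈ S) :
    Esc S y x0 ∅ := by
  have hsub : {v | Path {v | v ∈ S ∧ y v ∉ (∅ : Set ℝ)} x0 v} ⊆ S :=
    fun v hv => (Path.mem hv ⟨hx0, by simp⟩).1
  obtain ⟨x, hx, z, hz, ha, -⟩ := extreme (hS.subset hsub) ⟨x0, Path.refl _ _⟩ (Th 1 0 0)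
    (up_nb 1 0 0 X_pos X_neg)
  refine ⟨x, hsub hx, z, fun hzS => hz ?_, ha, by simp, hx⟩
  exact Path.trans hx (Path.single ha ⟨hsub hx, by simp⟩ ⟨hzS, by simp⟩)

theorem no_hole {a b c d P L θ0 : ℝ} {y : V → ℝ} (ha : 0 < a) (hb : 0 < b) (hc : 0 < c)
    (hd : 0 < d) (hP : a + b + c + d = P) (hy : ∀ v, 0 ≤ y v ∧ y v < P)
    (hyc : ∀ v, ∃ n : ℤ, y v = θ0 + Th a b d v + n * P) (hLP : L < P)
    {S : Set V} (hS : S.Finite)
    (hbd : ∀ x ∈ S, ∀ z, z ∉ S → Adj x z → 0 < y x ∧ y x < L ∧ L < y z)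
    (hconn : ∀ x ∈ S, ∀ z, z ∉ S → Adj x z → ∀ x' ∈ S, ∀ z', z' ∉ S → Adj x' z' →
      Path {v | L < y v} z z')
    (x0 : V) (hx0 : x0 ∈ S) : 0 < y x0 ∧ y x0 < L := by
  classical
  by_contra hbad
  obtain ⟨x1, hx1, o1, ho1, ha1, hm1⟩ := extreme hS ⟨x0, hx0⟩ (Th 1 0 0)
    (up_nb 1 0 0 X_pos X_neg)
  obtain ⟨x2, hx2, o2, ho2, ha2, hm2⟩ := extreme hS ⟨x0, hx0⟩ (fun v => -Th 1 0 0 v)
    (down_nb 1 0 0 X_pos X_neg)
  -- the set of separating pairs
  set U : Set V := {v | v ∈ S ∧ 0 < y v ∧ y v < L} with hU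
  have hUf : U.Finite := hS.subset (fun v hv => hv.1)
  have hUn : U.Nonempty := ⟨x1, hx1, (hbd x1 hx1 o1 ho1 ha1).1, (hbd x1 hx1 o1 ho1 ha1).2.1⟩
  set G : Set (V × V) :=
    {e | e.1 ∈ U ∧ e.2 ∈ U ∧ y e.1 ≤ y e.2 ∧ ¬ Esc S y x0 (Set.Icc (y e.1) (y e.2))} with hG
  have hGf : G.Finite := (hUf.prod hUf).subset (fun e he => ⟨he.1, he.2.1⟩)
  have hGn : G.Nonempty := by
    obtain ⟨v, hv, hvm⟩ := Set.exists_min_image U y hUf hUn
    obtain ⟨w, hw, hwm⟩ := Set.exists_max_image U y hUf hUn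
    refine ⟨(v, w), hv, hw, hvm w hw, ?_⟩
    rintro ⟨x, hx, z, hz, hxz, hyx, -⟩
    have h := hbd x hx z hz hxz
    exact hyx ⟨hvm x ⟨hx, h.1, h.2.1⟩, hwm x ⟨hx, h.1, h.2.1⟩⟩
  obtain ⟨⟨v, w⟩, ⟨hv, hw, hvw, hsep⟩, hmin⟩ :=
    Set.exists_min_image G (fun e => y e.2 - y e.1) hGf hGn
  simp only at hv hw hvw hsep hmin
  set p := y v with hp
  set q := y w with hq
  have hp0 : 0 < p := hv.2.1
  have hqL : q < L := hw.2.2
  have E1 : Esc S y x0 (Set.Ioc p q) := by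
    by_cases hne : {u | u ∈ S ∧ y u ∈ Set.Ioc p q}.Nonempty
    · obtain ⟨v', hv', hv'm⟩ := Set.exists_min_image _ y (hS.subset (fun u hu => hu.1)) hne
      have : Esc S y x0 (Set.Icc (y v') q) := by
        by_contra hcon
        have := hmin (v', w) ⟨⟨hv'.1, hp0.trans hv'.2.1, hv'.2.2.trans_lt hqL⟩, hw, hv'.2.2, hcon⟩
        simp only at this
        linarith [hv'.2.1]
      exact this.mono (fun u hu h => ⟨hv'm u ⟨hu, h⟩, h.2⟩)
    · exact (esc_empty hS y hx0).mono (fun u hu h => hne ⟨u, hu, h⟩)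
  have E2 : Esc S y x0 (Set.Ico p q) := by
    by_cases hne : {u | u ∈ S ∧ y u ∈ Set.Ico p q}.Nonempty
    · obtain ⟨w', hw', hw'm⟩ := Set.exists_max_image _ y (hS.subset (fun u hu => hu.1)) hne
      have : Esc S y x0 (Set.Icc p (y w')) := by
        by_contra hcon
        have := hmin (v, w') ⟨hv, ⟨hw'.1, hp0.trans_le hw'.2.1, hw'.2.2.trans hqL⟩, hw'.2.1, hcon⟩
        simp only at this
        linarith [hw'.2.2]
      exact this.mono (fun u hu h => ⟨h.1, hw'm u ⟨hu, h⟩⟩)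
    · exact (esc_empty hS y hx0).mono (fun u hu h => hne ⟨u, hu, h⟩)
  -- the new lifts
  set y1 : V → ℝ := fun u => if y u < q then y u + P else y u with hy1
  set y2 : V → ℝ := fun u => if y u ≤ q then y u + P else y u with hy2
  have hy1w : ∀ u, q ≤ y1 u ∧ y1 u < q + P := by
    intro u
    have := hy u
    simp only [hy1]
    split_ifs with h <;> constructor <;> linarith
  have hy2w : ∀ u, q ≤ y2 u ∧ y2 u ≤ q + P := by
    intro u
    have := hy u
    simp only [hy2]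
    split_ifs with h <;> constructor <;> linarith
  have hy1c : ∀ u, ∃ n : ℤ, y1 u = θ0 + Th a b d u + n * P := by
    intro u
    obtain ⟨n, hn⟩ := hyc u
    simp only [hy1]
    split_ifs with h
    · exact ⟨n + 1, by rw [hn]; push_cast; ring⟩
    · exact ⟨n, hn⟩
  have hy2c : ∀ u, ∃ n : ℤ, y2 u = θ0 + Th a b d u + n * P := by
    intro u
    obtain ⟨n, hn⟩ := hyc u
    simp only [hy2]
    split_ifs with h
    · exact ⟨n + 1, by rw [hn]; push_cast; ring⟩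
    · exact ⟨n, hn⟩
  have m0 : ∀ u, (q < y1 u ∧ y1 u < p + P) ↔ y u ∉ Set.Icc p q := by
    intro u
    have := hy u
    simp only [hy1, Set.mem_Icc, not_and_or, not_le]
    split_ifs with h
    · constructor
      · intro h1; left; linarith
      · rintro (h1 | h1) <;> constructor <;> linarith
    · constructor
      · intro h1; right; linarith
      · rintro (h1 | h1) <;> constructor <;> linarith
  have m0' : ∀ u, (q < y2 u ∧ y2 u < p + P) → y u ∉ Set.Icc p q := by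
    intro u
    have := hy u
    simp only [hy2, Set.mem_Icc, not_and_or, not_le]
    split_ifs with h
    · intro h1; left; linarith
    · intro h1; right; linarith
  have m12 : ∀ u, y u ∉ Set.Icc p q → y2 u = y1 u := by
    intro u
    simp only [hy1, hy2, Set.mem_Icc, not_and_or, not_le]
    rintro (h1 | h1)
    · rw [if_pos (by linarith), if_pos (by linarith)]
    · rw [if_neg (by linarith), if_neg (by linarith)]
  have m1 : ∀ u, y u ∉ Set.Ioc p q → (q < y2 u ∧ y2 u ≤ p + P) := by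
    intro u
    have := hy u
    simp only [hy2, Set.mem_Ioc, not_and_or, not_le, not_lt]
    split_ifs with h
    · rintro (h1 | h1) <;> constructor <;> linarith
    · rintro (h1 | h1) <;> constructor <;> linarith
  have m2 : ∀ u, y u ∉ Set.Ico p q → (q ≤ y1 u ∧ y1 u < p + P) := by
    intro u
    have := hy u
    simp only [hy1, Set.mem_Ico, not_and_or, not_le, not_lt]
    split_ifs with h
    · rintro (h1 | h1) <;> constructor <;> linarith
    · rintro (h1 | h1) <;> constructor <;> linarith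
  have hx0W : y x0 ∉ Set.Icc p q := fun h => hbad ⟨hp0.trans_le h.1, h.2.trans_lt hqL⟩
  -- the cluster of the hole vertex
  set W : Set V := {u | y u ∉ Set.Icc p q} with hW
  have hFS : ∀ u, Path W x0 u → u ∈ S ∧ Path {v | v ∈ S ∧ y v ∉ Set.Icc p q} x0 u := by
    intro u hu
    induction hu with
    | refl => exact ⟨hx0, Path.refl _ _⟩
    | @tail u1 u2 _ h2 ih =>
      have hu2 : u2 ∈ S := by
        by_contra hcon
        exact hsep ⟨u1, ih.1, u2, hcon, h2.1, h2.2.1, ih.2⟩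
      exact ⟨hu2, ih.2.trans (Path.single h2.1 ⟨ih.1, h2.2.1⟩ ⟨hu2, h2.2.2⟩)⟩
  have hFf : {u | Path W x0 u}.Finite := hS.subset (fun u hu => (hFS u hu).1)
  have hFm : ∀ u, u ∈ hFf.toFinset ↔ Path W x0 u := fun u => by simp
  have hLW : ∀ u, L < y u → y u ∉ Set.Icc p q := fun u hu h => by linarith [h.2]
  have ho1L := (hbd x1 hx1 o1 ho1 ha1).2.2
  have P1 : Path {u | q < y2 u ∧ y2 u ≤ p + P} x0 o1 := by
    obtain ⟨x, hx, z, hz, hxz, hyx, hpath⟩ := E1
    have hzL := (hbd x hx z hz hxz).2.2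
    have hL1 : ∀ u, L < y u → (q < y2 u ∧ y2 u ≤ p + P) :=
      fun u hu => m1 u (fun h => hLW u hu (Set.Ioc_subset_Icc_self h))
    refine (Path.mono (fun u hu => m1 u hu.2) hpath).trans
      ((Path.single hxz (m1 x hyx) (hL1 z hzL)).trans ?_)
    exact Path.mono (fun u hu => hL1 u hu) (hconn x hx z hz hxz x1 hx1 o1 ho1 ha1)
  have P2 : Path {u | q ≤ y1 u ∧ y1 u < p + P} x0 o1 := by
    obtain ⟨x, hx, z, hz, hxz, hyx, hpath⟩ := E2
    have hzL := (hbd x hx z hz hxz).2.2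
    have hL1 : ∀ u, L < y u → (q ≤ y1 u ∧ y1 u < p + P) :=
      fun u hu => m2 u (fun h => hLW u hu (Set.Ico_subset_Icc_self h))
    refine (Path.mono (fun u hu => m2 u hu.2) hpath).trans
      ((Path.single hxz (m2 x hyx) (hL1 z hzL)).trans ?_)
    exact Path.mono (fun u hu => hL1 u hu) (hconn x hx z hz hxz x1 hx1 o1 ho1 ha1)
  obtain ⟨x', hx'F, hx'1, hx'y⟩ := hole (F := hFf.toFinset) (r := p + P) ha hb hc hd hP
    (fun u => ⟨(hy1w u).1, (hy1w u).2.le⟩) hy2w hy1c hy2c (by linarith)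
    (fun u hu => (m0 u).mpr (Path.mem ((hFm u).mp hu) hx0W))
    (fun u hu => m12 u (Path.mem ((hFm u).mp hu) hx0W))
    (fun u hu z hz h1 h2 => (hFm z).mpr (((hFm u).mp hu).trans
      (Path.single hz (Path.mem ((hFm u).mp hu) hx0W) ((m0 z).mp ⟨h1, h2⟩))))
    (fun u hu z hz h1 h2 => (hFm z).mpr (((hFm u).mp hu).trans
      (Path.single hz (Path.mem ((hFm u).mp hu) hx0W) (m0' z ⟨h1, h2⟩))))
    x0 ((hFm x0).mpr (Path.refl _ _)) o1 (m12 o1 (hLW o1 ho1L)) P1 P2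
  have hx'P := (hFm x').mp hx'F
  -- translation
  have hT : ∀ u : V, y1 (u.1, u.2 - (o1.2 - x'.2)) = y1 u := by
    intro u
    obtain ⟨n1, h1⟩ := hy1c (u.1, u.2 - (o1.2 - x'.2))
    obtain ⟨n2, h2⟩ := hy1c u
    obtain ⟨n3, h3⟩ := hy1c o1
    obtain ⟨n4, h4⟩ := hy1c x'
    have h5 := Th_sub a b d u.1 o1.1 u.2 o1.2 x'.2
    have h6 : ((o1.1, x'.2) : V) = x' := by rw [← hx'1]
    rw [h6] at h5
    simp only [Prod.mk.eta] at h5
    apply eq_of_cong (P := P) (n1 - n2 + n3 - n4)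
    · push_cast; linarith
    · have e1 := hy1w (u.1, u.2 - (o1.2 - x'.2))
      have e2 := hy1w u
      rw [abs_lt]; constructor <;> linarith [e1.1, e1.2, e2.1, e2.2]
  have Q1 : Path W o1 o2 :=
    Path.mono (fun u hu => hLW u hu) (hconn x1 hx1 o1 ho1 ha1 x2 hx2 o2 ho2 ha2)
  have Q2 := Q1.translate (o1.2 - x'.2) (by
    intro u hu
    have := (m0 u).mpr hu
    rw [← hT u] at this
    exact (m0 _).mp this)
  have h6 : ((o1.1, o1.2 - (o1.2 - x'.2)) : V) = x' := by rw [← hx'1]; simp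
  rw [h6] at Q2
  have h7 := (hFS _ (hx'P.trans Q2)).1
  have h8 := hm2 _ h7
  have h9 := hm1 _ (hFS _ hx'P).1
  have h5 := Th_sub 1 0 0 o2.1 o1.1 o2.2 o1.2 x'.2
  have h10 : ((o1.1, x'.2) : V) = x' := by rw [← hx'1]
  rw [h10] at h5
  simp only [Prod.mk.eta] at h5
  linarith

theorem no_big {A B D P L θ0 : ℝ} {y : V → ℝ} (hy : ∀ v, 0 ≤ y v ∧ y v < P)
    (hyc : ∀ v, ∃ n : ℤ, y v = θ0 + Th A B D v + n * P) (hinc : ∀ τ, |inc A B D τ| ≤ L)
    (hpos : ∃ τ, 0 < inc A B D τ) (hneg : ∃ τ, inc A B D τ < 0)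
    {S : Set V} (hS : S.Finite) (hne : S.Nonempty)
    (hbd : ∀ x ∈ S, ∀ z, z ∉ S → Adj x z → 0 < y x ∧ y x < L ∧ L < y z)
    (hconn : ∀ x ∈ S, ∀ z, z ∉ S → Adj x z → ∀ x' ∈ S, ∀ z', z' ∉ S → Adj x' z' →
      Path {v | L < y v} z z') : False := by
  obtain ⟨x1, hx1, o1, ho1, ha1, hm1⟩ := extreme hS hne (Th A B D) (up_nb A B D hpos hneg)
  obtain ⟨x2, hx2, o2, ho2, ha2, hm2⟩ := extreme hS hne (fun v => -Th A B D v)
    (down_nb A B D hpos hneg)
  have hc := Path.const (fun v => y v - Th A B D v) (by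
    rintro x z ⟨τ, g, rfl, rfl⟩ hx hz
    simp only [Set.mem_ofPred_eq] at hx hz
    obtain ⟨n, hn⟩ := edge_cong hyc τ g
    have e1 := hy (false, g)
    have e2 := hy (true, g + dl τ)
    have e3 := abs_le.mp (hinc τ)
    have e4 := eq_of_cong (P := P) n hn
      (by rw [abs_lt]; constructor <;> linarith [e1.1, e1.2, e2.1, e2.2, e3.1, e3.2])
    simp only [Th_step]
    linarith) (hconn x1 hx1 o1 ho1 ha1 x2 hx2 o2 ho2 ha2)
  have b1 := hbd x1 hx1 o1 ho1 ha1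
  have b2 := hbd x2 hx2 o2 ho2 ha2
  have e1 := hm1 x1 hx1
  have e2 := hm2 x1 hx1
  have e3 := hy o1
  obtain ⟨n1, h1⟩ := hyc x1
  obtain ⟨n2, h2⟩ := hyc o1
  have := eq_of_cong (P := P) (s := y x1) (t := Th A B D x1 + (y o1 - Th A B D o1)) (n1 - n2)
    (by push_cast; linarith)
    (by rw [abs_lt]; constructor <;> linarith [b1.1, b1.2.1, b1.2.2, b2.2.2, e3.2])
  linarith [b1.2.1, b2.2.2]

/-- The four vertices of a tile; `true` for translates of the base tile. -/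
def vert (s : Bool) (g : ℤ × ℤ) (τ : Fin 4) : V :=
  if s then ![(false, g), (true, g), (false, g - (1, 0)), (true, g - (0, 1))] τ
  else ![(true, g), (false, g), (true, g + (1, 0)), (false, g + (0, 1))] τ

theorem core {a b c d P L θ0 : ℝ} {y : V → ℝ} (ha : 0 < a) (hb : 0 < b) (hc : 0 < c)
    (hd : 0 < d) (hP : a + b + c + d = P) (hy : ∀ v, 0 ≤ y v ∧ y v < P)
    (hyc : ∀ v, ∃ n : ℤ, y v = θ0 + Th a b d v + n * P) (hLP : L < P)
    {S : Set V} (hS : S.Finite)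
    (hbd : ∀ x ∈ S, ∀ z, z ∉ S → Adj x z → 0 < y x ∧ y x < L ∧ L < y z)
    (hconn : ∀ x ∈ S, ∀ z, z ∉ S → Adj x z → ∀ x' ∈ S, ∀ z', z' ∉ S → Adj x' z' →
      Path {v | L < y v} z z')
    (s : Bool) (g : ℤ × ℤ) (hT : ∀ τ, vert s g τ ∈ S) : False := by
  have hU := no_hole ha hb hc hd hP hy hyc hLP hS hbd hconn
  have hne : S.Nonempty := ⟨_, hT 0⟩
  by_cases h1 : P - L ≤ a
  · refine no_big (A := a - P) (B := b) (D := d) (θ0 := θ0) hy (fun v => ?_) (fun τ => ?_)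
      ⟨2, by simp [inc]; linarith⟩ ⟨1, by simp [inc]; linarith⟩ hS hne hbd hconn
    · obtain ⟨n, hn⟩ := hyc v
      refine ⟨n - v.2.1 + v.2.2 + (if v.1 then 1 else 0), ?_⟩
      rw [hn]; simp only [Th]; split_ifs <;> push_cast <;> ring
    · rw [abs_le]; fin_cases τ <;> simp [inc] <;> constructor <;> linarith
  by_cases h2 : P - L ≤ b
  · refine no_big (A := a) (B := b - P) (D := d) (θ0 := θ0) hy (fun v => ?_) (fun τ => ?_)
      ⟨0, by simp [inc]; linarith⟩ ⟨3, by simp [inc]; linarith⟩ hS hne hbd hconn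
    · obtain ⟨n, hn⟩ := hyc v
      refine ⟨n - v.2.1, ?_⟩
      rw [hn]; simp only [Th]; split_ifs <;> push_cast <;> ring
    · rw [abs_le]; fin_cases τ <;> simp [inc] <;> constructor <;> linarith
  by_cases h3 : P - L ≤ c
  · refine no_big (A := a) (B := b) (D := d) (θ0 := θ0) hy hyc (fun τ => ?_)
      ⟨0, by simp [inc]; linarith⟩ ⟨3, by simp [inc]; linarith⟩ hS hne hbd hconn
    rw [abs_le]; fin_cases τ <;> simp [inc] <;> constructor <;> linarith
  by_cases h4 : P - L ≤ d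
  · refine no_big (A := a) (B := b) (D := d - P) (θ0 := θ0) hy (fun v => ?_) (fun τ => ?_)
      ⟨0, by simp [inc]; linarith⟩ ⟨1, by simp [inc]; linarith⟩ hS hne hbd hconn
    · obtain ⟨n, hn⟩ := hyc v
      refine ⟨n + v.2.2, ?_⟩
      rw [hn]; simp only [Th]; split_ifs <;> push_cast <;> ring
    · rw [abs_le]; fin_cases τ <;> simp [inc] <;> constructor <;> linarith
  push Not at h1 h2 h3 h4
  -- every edge inside `S` has its plain increment
  have key : ∀ (τ : Fin 4) (k : ℤ × ℤ), ((false, k) : V) ∈ S → ((true, k + dl τ) : V) ∈ S →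
      y (true, k + dl τ) - y (false, k) = ![a, -b, c, -d] τ := by
    intro τ k hk hk'
    obtain ⟨n, hn⟩ := edge_cong hyc τ k
    have e1 := hU _ hk
    have e2 := hU _ hk'
    refine eq_of_cong (P := P) (n - (if τ = 2 then 1 else 0)) ?_ ?_
    · rw [hn]; fin_cases τ <;> simp [inc]; linarith
    · rw [abs_lt]
      generalize y (true, k + dl τ) = t at e2 ⊢
      clear hn hk'
      fin_cases τ <;> simp <;> constructor <;> linarith [e1.1, e1.2, e2.1, e2.2]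
  have t0 := hT 0
  have t1 := hT 1
  have t2 := hT 2
  have t3 := hT 3
  obtain ⟨m, k⟩ := g
  cases s
  · simp [vert] at t0 t1 t2 t3
    have k0 := key 0 (m, k) t1 (by simpa [dl] using t0)
    have k1 := key 1 (m, k) t1 (by simpa [dl] using t2)
    have k2 := key 2 (m, k + 1) t3 (by simpa [dl] using t2)
    have k3 := key 3 (m, k + 1) t3 (by simpa [dl] using t0)
    simp [dl] at k0 k1 k2 k3
    linarith
  · simp [vert] at t0 t1 t2 t3
    have k0 := key 0 (m, k) t0 (by simpa [dl] using t1)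
    have k1 := key 1 (m - 1, k) t2 (by simpa [dl] using t1)
    have k2 := key 2 (m - 1, k) t2 (by simpa [dl, sub_eq_add_neg] using t3)
    have k3 := key 3 (m, k) t0 (by simpa [dl, sub_eq_add_neg] using t3)
    simp [dl] at k0 k1 k2 k3
    linarith

end Pool.Agent.MP_2c8680_an.H64
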