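import Pool.Agent.MP_2c8680_an.H64.Core2

set_option autoImplicit false

namespace Pool.Agent.MP_2c8680_an.H64

/-- Cross product. -/
def cr (z w : ℂ) : ℝ := z.re * w.im - z.im * w.re

/-- A strictly convex counterclockwise quadrilateral. -/
structure Quad where
  A : ℂ
  B : ℂ
  C : ℂ
  D : ℂ
  h1 : 0 < cr (B - A) (C - B)
  h2 : 0 < cr (C - B) (D - C)
  h3 : 0 < cr (D - C) (A - D)
  h4 : 0 < cr (A - D) (B - A)

def sg (s : Bool) : ℂ := if s then 1 else -1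

def gm (τ : Fin 4) : ℤ × ℤ := ![(0, 0), (1, 0), (1, 1), (0, 1)] τ

/-- Index of the neighbouring tile across side `τ`. -/
def nb (s : Bool) (g : ℤ × ℤ) (τ : Fin 4) : ℤ × ℤ := if s then g - gm τ else g + gm τ

lemma vert_nb (s : Bool) (g : ℤ × ℤ) (τ : Fin 4) :
    vert (!s) (nb s g τ) τ = vert s g (τ + 1) := by
  obtain ⟨m, k⟩ := g
  cases s <;> fin_cases τ <;> simp [vert, nb, gm]

lemma vert_nb' (s : Bool) (g : ℤ × ℤ) (τ : Fin 4) :
    vert (!s) (nb s g τ) (τ + 1) = vert s g τ := by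
  obtain ⟨m, k⟩ := g
  cases s <;> fin_cases τ <;> simp [vert, nb, gm]

lemma nb_nb (s : Bool) (g : ℤ × ℤ) (τ : Fin 4) : nb (!s) (nb s g τ) τ = g := by
  cases s <;> simp [nb]

lemma nb_inj (s : Bool) (g : ℤ × ℤ) {τ ρ : Fin 4} (h : nb s g τ = nb s g ρ) : τ = ρ := by
  have : gm τ = gm ρ := by
    cases s <;> simpa [nb] using h
  revert this
  fin_cases τ <;> fin_cases ρ <;> simp [gm]

lemma adj_vert (s : Bool) (g : ℤ × ℤ) (τ : Fin 4) : Adj (vert s g τ) (vert s g (τ + 1)) := by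
  obtain ⟨m, k⟩ := g
  cases s <;> fin_cases τ
  · exact Or.inr ⟨0, (m, k), by simp [vert], by simp [vert, dl]⟩
  · exact Or.inl ⟨1, (m, k), by simp [vert], by simp [vert, dl]⟩
  · exact Or.inr ⟨2, (m, k + 1), by simp [vert], by simp [vert, dl]⟩
  · exact Or.inl ⟨3, (m, k + 1), by simp [vert], by simp [vert, dl]⟩
  · exact Or.inl ⟨0, (m, k), by simp [vert], by simp [vert, dl]⟩
  · exact Or.inr ⟨1, (m - 1, k), by simp [vert], by simp [vert, dl]⟩
  · exact Or.inl ⟨2, (m - 1, k), by simp [vert], by simp [vert, dl, sub_eq_add_neg]⟩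
  · exact Or.inr ⟨3, (m, k), by simp [vert], by simp [vert, dl, sub_eq_add_neg]⟩

lemma E_vert {x z : V} (h : E x z) : ∃ g τ,
    (x = vert true g τ ∧ z = vert true g (τ + 1)) ∨ (z = vert true g τ ∧ x = vert true g (τ + 1)) := by
  obtain ⟨τ, ⟨m, k⟩, rfl, rfl⟩ := h
  fin_cases τ
  · exact ⟨(m, k), 0, Or.inl ⟨by simp [vert], by simp [vert, dl]⟩⟩
  · exact ⟨(m + 1, k), 1, Or.inr ⟨by simp [vert, dl], by simp [vert]⟩⟩
  · exact ⟨(m + 1, k), 2, Or.inl ⟨by simp [vert], by simp [vert, dl, sub_eq_add_neg]⟩⟩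
  · exact ⟨(m, k), 3, Or.inr ⟨by simp [vert, dl, sub_eq_add_neg], by simp [vert]⟩⟩

lemma Adj.exists_vert {x z : V} (h : Adj x z) : ∃ g τ,
    (x = vert true g τ ∧ z = vert true g (τ + 1)) ∨ (z = vert true g τ ∧ x = vert true g (τ + 1)) := by
  rcases h with h | h
  · exact E_vert h
  · obtain ⟨g, τ, h⟩ := E_vert h
    exact ⟨g, τ, h.symm⟩

lemma int_gt (p q k : ℝ) (K : Set ℂ) (h : ∀ z ∈ K, 0 ≤ p * z.re + q * z.im + k)
    (hpq : p ≠ 0 ∨ q ≠ 0) : ∀ z ∈ interior K, 0 < p * z.re + q * z.im + k := by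
  intro z hz
  have hc : Continuous (fun t : ℝ => z - (t : ℂ) * (⟨p, q⟩ : ℂ)) := by fun_prop
  have h1 : ∀ᶠ t : ℝ in nhds (0 : ℝ), z - (t : ℂ) * (⟨p, q⟩ : ℂ) ∈ K := by
    apply hc.continuousAt.eventually_mem
    simpa using mem_interior_iff_mem_nhds.mp hz
  have h2 : ∀ᶠ t : ℝ in nhdsWithin (0 : ℝ) (Set.Ioi 0), z - (t : ℂ) * (⟨p, q⟩ : ℂ) ∈ K ∧ 0 < t :=
    (h1.filter_mono nhdsWithin_le_nhds).and self_mem_nhdsWithin
  obtain ⟨t, ht1, ht2⟩ := h2.exists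
  have h3 := h _ ht1
  simp at h3
  have h4 : 0 < p ^ 2 + q ^ 2 := by
    rcases hpq with h | h <;> positivity
  nlinarith [mul_pos ht2 h4]

namespace Quad

variable (Q : Quad)

def X (τ : Fin 4) : ℂ := ![Q.A, Q.B, Q.C, Q.D] τ

noncomputable def tr (s : Bool) (g : ℤ × ℤ) : ℂ :=
  (1 - sg s) / 2 * (Q.A + Q.B) + (g.1 : ℂ) * (Q.A - Q.C) + (g.2 : ℂ) * (Q.B - Q.D)

def pos (v : V) : ℂ :=
  (if v.1 then Q.B else Q.A) + (v.2.1 : ℂ) * (Q.A - Q.C) + (v.2.2 : ℂ) * (Q.B - Q.D)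

def Tl (s : Bool) (g : ℤ × ℤ) : Set ℂ :=
  (fun z : ℂ => sg s * z + Q.tr s g) '' convexHull ℝ {Q.A, Q.B, Q.C, Q.D}

lemma pos_vert (s : Bool) (g : ℤ × ℤ) (τ : Fin 4) :
    Q.pos (vert s g τ) = sg s * Q.X τ + Q.tr s g := by
  cases s <;> fin_cases τ <;> simp [pos, vert, sg, X, tr] <;> ring

lemma isClosed_Tl (s : Bool) (g : ℤ × ℤ) : IsClosed (Q.Tl s g) := by
  apply IsCompact.isClosed
  apply IsCompact.image
  · exact Set.Finite.isCompact_convexHull ℝ (by simp)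
  · fun_prop

lemma seg_sub_Tl (s : Bool) (g : ℤ × ℤ) (τ ρ : Fin 4) :
    segment ℝ (Q.pos (vert s g τ)) (Q.pos (vert s g ρ)) ⊆ Q.Tl s g := by
  rintro z ⟨a, b, ha, hb, hab, rfl⟩
  have hX : ∀ σ, Q.X σ ∈ convexHull ℝ ({Q.A, Q.B, Q.C, Q.D} : Set ℂ) := by
    intro σ
    apply subset_convexHull
    fin_cases σ <;> simp [X]
  refine ⟨a • Q.X τ + b • Q.X ρ, convex_convexHull ℝ _ (hX τ) (hX ρ) ha hb hab, ?_⟩
  have hb' : (b : ℂ) = 1 - a := by
    have : b = 1 - a := by linarith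
    rw [this]; push_cast; ring
  simp only [pos_vert, Complex.real_smul, hb']
  ring

lemma tile_ge (s : Bool) (g : ℤ × ℤ) (p q k : ℝ)
    (h : ∀ τ, 0 ≤ p * (Q.pos (vert s g τ)).re + q * (Q.pos (vert s g τ)).im + k) :
    ∀ z ∈ Q.Tl s g, 0 ≤ p * z.re + q * z.im + k := by
  rintro z ⟨z', hz', rfl⟩
  have hsub : convexHull ℝ ({Q.A, Q.B, Q.C, Q.D} : Set ℂ) ⊆
      {w | 0 ≤ p * (sg s * w + Q.tr s g).re + q * (sg s * w + Q.tr s g).im + k} := by
    apply convexHull_min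
    · intro w hw
      simp only [pos_vert] at h
      simp only [Set.mem_insert_iff, Set.mem_singleton_iff] at hw
      rcases hw with rfl | rfl | rfl | rfl
      · exact h 0
      · exact h 1
      · exact h 2
      · exact h 3
    · intro x hx y hy a b ha hb hab
      simp only [Set.mem_ofPred_eq] at hx hy ⊢
      have hb' : b = 1 - a := by linarith
      have := add_nonneg (mul_nonneg ha hx) (mul_nonneg hb hy)
      subst hb'
      refine this.trans_eq ?_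
      cases s <;> simp [sg] <;> ring
  exact hsub hz'

/-- The signed distance-like functional of side `τ`. -/
def sd (s : Bool) (g : ℤ × ℤ) (τ : Fin 4) (z : ℂ) : ℝ :=
  cr (Q.pos (vert s g (τ + 1)) - Q.pos (vert s g τ)) (z - Q.pos (vert s g τ))

lemma side_ne (τ : Fin 4) : Q.X (τ + 1) - Q.X τ ≠ 0 := by
  have h1 := Q.h1
  have h2 := Q.h2
  have h3 := Q.h3
  have h4 := Q.h4
  intro h
  fin_cases τ <;> simp [X] at h <;> simp [h, cr] at h1 h2 h3 h4

lemma pos_sub (s : Bool) (g : ℤ × ℤ) (τ ρ : Fin 4) :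
    Q.pos (vert s g ρ) - Q.pos (vert s g τ) = sg s * (Q.X ρ - Q.X τ) := by
  simp only [pos_vert]; ring

lemma cr_sg (s : Bool) (z w : ℂ) : cr (sg s * z) (sg s * w) = cr z w := by
  cases s <;> simp [sg, cr]

lemma sd_pos (s : Bool) (g : ℤ × ℤ) (τ : Fin 4) :
    ∀ z ∈ interior (Q.Tl s g), 0 < Q.sd s g τ z := by
  intro z hz
  set e := Q.pos (vert s g (τ + 1)) - Q.pos (vert s g τ) with he
  set x := Q.pos (vert s g τ) with hx
  have hf : ∀ w : ℂ, (-e.im) * w.re + e.re * w.im + (e.im * x.re - e.re * x.im) =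
      Q.sd s g τ w := by
    intro w; simp only [sd, cr, ← he, ← hx, Complex.sub_re, Complex.sub_im]; ring
  rw [← hf]
  apply int_gt _ _ _ _ (Q.tile_ge s g _ _ _ ?_) ?_ z hz
  · intro ρ
    rw [hf, sd, pos_sub, pos_sub, cr_sg]
    have h1 := Q.h1
    have h2 := Q.h2
    have h3 := Q.h3
    have h4 := Q.h4
    simp only [cr, Complex.sub_re, Complex.sub_im] at h1 h2 h3 h4 ⊢
    fin_cases τ <;> fin_cases ρ <;> simp [X] <;> linarith
  · by_contra hcon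
    push Not at hcon
    have : e = 0 := Complex.ext hcon.2 (by simpa using hcon.1)
    rw [he, hx, pos_sub] at this
    apply Q.side_ne τ
    rcases mul_eq_zero.mp this with h | h
    · cases s <;> simp [sg] at h
    · exact h

lemma sd_seg (s : Bool) (g : ℤ × ℤ) (τ : Fin 4) :
    ∀ z ∈ segment ℝ (Q.pos (vert s g τ)) (Q.pos (vert s g (τ + 1))), Q.sd s g τ z = 0 := by
  rintro z ⟨a, b, ha, hb, hab, rfl⟩
  have hb' : a = 1 - b := by linarith
  subst hb'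
  simp [sd, cr]
  ring

def Dl : ℝ := cr (Q.A - Q.C) (Q.B - Q.D)

lemma Dl_pos : 0 < Q.Dl := by
  have h1 := Q.h1
  have h3 := Q.h3
  simp only [Dl, cr, Complex.sub_re, Complex.sub_im] at h1 h3 ⊢
  linarith

noncomputable def xi (z : ℂ) : ℝ := cr (z - Q.B) (Q.B - Q.D) / Q.Dl
noncomputable def eta (z : ℂ) : ℝ := cr (Q.A - Q.C) (z - Q.A) / Q.Dl

lemma al_pos : 0 < Q.xi Q.A := by
  apply div_pos _ Q.Dl_pos
  have h4 := Q.h4
  simp only [cr, Complex.sub_re, Complex.sub_im] at h4 ⊢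
  linarith

lemma al_lt : Q.xi Q.A < 1 := by
  rw [xi, div_lt_one Q.Dl_pos]
  have h2 := Q.h2
  simp only [Dl, cr, Complex.sub_re, Complex.sub_im] at h2 ⊢
  linarith

lemma be_pos : 0 < Q.eta Q.B := by
  apply div_pos _ Q.Dl_pos
  have h1 := Q.h1
  simp only [cr, Complex.sub_re, Complex.sub_im] at h1 ⊢
  linarith

lemma be_lt : Q.eta Q.B < 1 := by
  rw [eta, div_lt_one Q.Dl_pos]
  have h3 := Q.h3
  simp only [Dl, cr, Complex.sub_re, Complex.sub_im] at h3 ⊢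
  linarith

lemma xi_pos (v : V) : Q.xi (Q.pos v) = v.2.1 + (if v.1 then 0 else Q.xi Q.A) := by
  have := Q.Dl_pos.ne'
  simp only [xi, pos]
  split_ifs <;> field_simp <;> simp [cr, Dl] <;> ring

lemma eta_pos (v : V) : Q.eta (Q.pos v) = v.2.2 + (if v.1 then Q.eta Q.B else 0) := by
  have := Q.Dl_pos.ne'
  simp only [eta, pos]
  split_ifs <;> field_simp <;> simp [cr, Dl] <;> ring

lemma xi_comb (x y : ℂ) (a b : ℝ) (hab : a + b = 1) :
    Q.xi (a • x + b • y) = a * Q.xi x + b * Q.xi y := by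
  have hb' : a = 1 - b := by linarith
  subst hb'
  have := Q.Dl_pos.ne'
  simp only [xi]
  field_simp
  simp [cr]; ring

lemma eta_comb (x y : ℂ) (a b : ℝ) (hab : a + b = 1) :
    Q.eta (a • x + b • y) = a * Q.eta x + b * Q.eta y := by
  have hb' : a = 1 - b := by linarith
  subst hb'
  have := Q.Dl_pos.ne'
  simp only [eta]
  field_simp
  simp [cr]; ring

noncomputable def lx (s : Bool) (g : ℤ × ℤ) : ℝ := if s then g.1 + Q.xi Q.A - 1 else g.1
noncomputable def ly (s : Bool) (g : ℤ × ℤ) : ℝ := if s then g.2 + Q.eta Q.B - 1 else g.2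

def CB (s : Bool) (g : ℤ × ℤ) (z : ℂ) : Prop :=
  Q.lx s g ≤ Q.xi z ∧ Q.xi z ≤ Q.lx s g + 1 ∧ Q.ly s g ≤ Q.eta z ∧ Q.eta z ≤ Q.ly s g + 1

def OB (s : Bool) (g : ℤ × ℤ) (z : ℂ) : Prop :=
  Q.lx s g < Q.xi z ∧ Q.xi z < Q.lx s g + 1 ∧ Q.ly s g < Q.eta z ∧ Q.eta z < Q.ly s g + 1

lemma CB_vert (s : Bool) (g : ℤ × ℤ) (τ : Fin 4) : Q.CB s g (Q.pos (vert s g τ)) := by
  have h1 := Q.al_pos
  have h2 := Q.al_lt
  have h3 := Q.be_pos
  have h4 := Q.be_lt
  simp only [CB, xi_pos, eta_pos, lx, ly]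
  cases s <;> fin_cases τ <;> simp [vert] <;> (try refine ⟨?_, ?_⟩) <;>
    (try refine ⟨?_, ?_⟩) <;> linarith

lemma xi_aff : ∃ p q k : ℝ, (p ≠ 0 ∨ q ≠ 0) ∧ ∀ z : ℂ, Q.xi z = p * z.re + q * z.im + k := by
  have h0 := Q.Dl_pos.ne'
  refine ⟨(Q.B - Q.D).im / Q.Dl, -(Q.B - Q.D).re / Q.Dl, -cr Q.B (Q.B - Q.D) / Q.Dl, ?_, ?_⟩
  · by_contra hcon
    push Not at hcon
    obtain ⟨h1, h2⟩ := hcon
    simp only [div_eq_zero_iff, h0, or_false, neg_eq_zero] at h1 h2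
    apply h0
    simp only [Dl, cr, h1, h2]; ring
  · intro z
    simp only [xi, cr, Complex.sub_re, Complex.sub_im]; ring

lemma eta_aff : ∃ p q k : ℝ, (p ≠ 0 ∨ q ≠ 0) ∧ ∀ z : ℂ, Q.eta z = p * z.re + q * z.im + k := by
  have h0 := Q.Dl_pos.ne'
  refine ⟨-(Q.A - Q.C).im / Q.Dl, (Q.A - Q.C).re / Q.Dl, -cr (Q.A - Q.C) Q.A / Q.Dl, ?_, ?_⟩
  · by_contra hcon
    push Not at hcon
    obtain ⟨h1, h2⟩ := hcon
    simp only [div_eq_zero_iff, h0, or_false, neg_eq_zero] at h1 h2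
    apply h0
    simp only [Dl, cr, h1, h2]; ring
  · intro z
    simp only [eta, cr, Complex.sub_re, Complex.sub_im]; ring

lemma aff_box (s : Bool) (g : ℤ × ℤ) (f : ℂ → ℝ) (l : ℝ)
    (hf : ∃ p q k : ℝ, (p ≠ 0 ∨ q ≠ 0) ∧ ∀ z : ℂ, f z = p * z.re + q * z.im + k)
    (h : ∀ τ, l ≤ f (Q.pos (vert s g τ)) ∧ f (Q.pos (vert s g τ)) ≤ l + 1) :
    (∀ z ∈ Q.Tl s g, l ≤ f z ∧ f z ≤ l + 1) ∧
      (∀ z ∈ interior (Q.Tl s g), l < f z ∧ f z < l + 1) := by
  obtain ⟨p, q, k, hpq, hf⟩ := hf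
  have e1 := Q.tile_ge s g p q (k - l) (fun τ => by have := (h τ).1; rw [hf] at this; linarith)
  have e2 := Q.tile_ge s g (-p) (-q) (l + 1 - k)
    (fun τ => by have := (h τ).2; rw [hf] at this; linarith)
  have e3 := int_gt _ _ _ _ e1 hpq
  have e4 := int_gt _ _ _ _ e2 (by simpa using hpq)
  constructor
  · intro z hz
    rw [hf]; constructor <;> linarith [e1 z hz, e2 z hz]
  · intro z hz
    rw [hf]; constructor <;> linarith [e3 z hz, e4 z hz]

lemma CB_of_mem (s : Bool) (g : ℤ × ℤ) {z : ℂ} (hz : z ∈ Q.Tl s g) : Q.CB s g z := by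
  have e1 := (Q.aff_box s g Q.xi (Q.lx s g) Q.xi_aff
    (fun τ => ⟨(Q.CB_vert s g τ).1, (Q.CB_vert s g τ).2.1⟩)).1 z hz
  have e2 := (Q.aff_box s g Q.eta (Q.ly s g) Q.eta_aff
    (fun τ => ⟨(Q.CB_vert s g τ).2.2.1, (Q.CB_vert s g τ).2.2.2⟩)).1 z hz
  exact ⟨e1.1, e1.2, e2.1, e2.2⟩

lemma OB_of_mem (s : Bool) (g : ℤ × ℤ) {z : ℂ} (hz : z ∈ interior (Q.Tl s g)) : Q.OB s g z := by
  have e1 := (Q.aff_box s g Q.xi (Q.lx s g) Q.xi_aff
    (fun τ => ⟨(Q.CB_vert s g τ).1, (Q.CB_vert s g τ).2.1⟩)).2 z hz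
  have e2 := (Q.aff_box s g Q.eta (Q.ly s g) Q.eta_aff
    (fun τ => ⟨(Q.CB_vert s g τ).2.2.1, (Q.CB_vert s g τ).2.2.2⟩)).2 z hz
  exact ⟨e1.1, e1.2, e2.1, e2.2⟩

lemma int_eq_of_close {m n : ℤ} (h1 : (m : ℝ) < n + 1) (h2 : (n : ℝ) < m + 1) : m = n := by
  have h3 : m < n + 1 := by exact_mod_cast h1
  have h4 : n < m + 1 := by exact_mod_cast h2
  omega

lemma box_unique (s : Bool) (g g' : ℤ × ℤ) {z : ℂ} (h : Q.OB s g z) (h' : Q.CB s g' z) :
    g = g' := by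
  obtain ⟨a1, a2, a3, a4⟩ := h
  obtain ⟨b1, b2, b3, b4⟩ := h'
  cases s <;> simp only [lx, ly, if_true, Bool.false_eq_true, if_false] at * <;>
    exact Prod.ext (int_eq_of_close (by linarith) (by linarith))
      (int_eq_of_close (by linarith) (by linarith))

lemma int_not_between {m n : ℤ} (h1 : (m : ℝ) < n) (h2 : (n : ℝ) < m + 1) : False := by
  have h3 : m < n := by exact_mod_cast h1
  have h4 : n < m + 1 := by exact_mod_cast h2
  omega

lemma vertex_not_OB (v : V) (s : Bool) (g : ℤ × ℤ) : ¬ Q.OB s g (Q.pos v) := by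
  rintro ⟨a1, a2, a3, a4⟩
  obtain ⟨π, m, k⟩ := v
  rw [xi_pos] at a1 a2
  rw [eta_pos] at a3 a4
  cases s <;> cases π <;>
    simp only [lx, ly, if_true, Bool.false_eq_true, if_false, add_zero] at a1 a2 a3 a4
  · exact int_not_between a3 a4
  · exact int_not_between a1 a2
  · exact int_not_between (m := g.1 - 1) (n := m) (by push_cast; linarith) (by push_cast; linarith)
  · exact int_not_between (m := g.2 - 1) (n := k) (by push_cast; linarith) (by push_cast; linarith)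

lemma OB_side (s : Bool) (g : ℤ × ℤ) (τ : Fin 4) {z : ℂ}
    (hz : z ∈ openSegment ℝ (Q.pos (vert s g τ)) (Q.pos (vert s g (τ + 1)))) : Q.OB s g z := by
  obtain ⟨a, b, ha, hb, hab, rfl⟩ := hz
  have h1 := Q.al_pos
  have h2 := Q.al_lt
  have h3 := Q.be_pos
  have h4 := Q.be_lt
  simp only [OB, Q.xi_comb _ _ a b hab, Q.eta_comb _ _ a b hab, xi_pos, eta_pos, lx, ly]
  have hb' : b = 1 - a := by linarith
  subst hb'
  have p1 := mul_pos ha h1
  have p2 := mul_pos hb h1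
  have p3 := mul_pos ha h3
  have p4 := mul_pos hb h3
  have p5 := mul_pos ha (sub_pos.mpr h2)
  have p6 := mul_pos hb (sub_pos.mpr h2)
  have p7 := mul_pos ha (sub_pos.mpr h4)
  have p8 := mul_pos hb (sub_pos.mpr h4)
  cases s <;> fin_cases τ <;> simp [vert] <;> refine ⟨?_, ?_, ?_, ?_⟩ <;> linarith

/-- A tile meeting an open side is one of the two adjacent tiles. -/
lemma two_tiles (s : Bool) (g : ℤ × ℤ) (τ : Fin 4) {z : ℂ}
    (hz : z ∈ openSegment ℝ (Q.pos (vert s g τ)) (Q.pos (vert s g (τ + 1))))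
    (s' : Bool) (g' : ℤ × ℤ) (hz' : z ∈ Q.Tl s' g') :
    (s' = s ∧ g' = g) ∨ (s' = !s ∧ g' = nb s g τ) := by
  have h1 := Q.OB_side s g τ hz
  have h2 := Q.OB_side (!s) (nb s g τ) τ (by rw [vert_nb, vert_nb', openSegment_symm]; exact hz)
  have h3 := Q.CB_of_mem s' g' hz'
  by_cases h : s' = s
  · subst h
    exact Or.inl ⟨rfl, (Q.box_unique _ _ _ h1 h3).symm⟩
  · have h' : s' = !s := by cases s <;> cases s' <;> simp_all
    subst h'
    exact Or.inr ⟨rfl, (Q.box_unique _ _ _ h2 h3).symm⟩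

lemma edge_not_int {x z : V} (h : Adj x z) {w : ℂ} (hw : w ∈ segment ℝ (Q.pos x) (Q.pos z))
    (s : Bool) (g : ℤ × ℤ) (hi : w ∈ interior (Q.Tl s g)) : False := by
  have main : ∀ g' τ, w ∈ segment ℝ (Q.pos (vert true g' τ)) (Q.pos (vert true g' (τ + 1))) →
      False := by
    intro g' τ hw
    have hw' := hw
    rw [← insert_endpoints_openSegment] at hw'
    rcases hw' with rfl | rfl | hw'
    · exact Q.vertex_not_OB _ s g (Q.OB_of_mem s g hi)
    · exact Q.vertex_not_OB _ s g (Q.OB_of_mem s g hi)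
    · rcases Q.two_tiles true g' τ hw' s g (interior_subset hi) with ⟨rfl, rfl⟩ | ⟨rfl, rfl⟩
      · exact (Q.sd_pos _ _ τ w hi).ne' (Q.sd_seg _ _ τ w hw)
      · refine (Q.sd_pos _ _ τ w hi).ne' (Q.sd_seg _ _ τ w ?_)
        rw [vert_nb, vert_nb', segment_symm]; exact hw
  obtain ⟨g', τ, ⟨rfl, rfl⟩ | ⟨rfl, rfl⟩⟩ := h.exists_vert
  · exact main g' τ hw
  · exact main g' τ (by rw [segment_symm]; exact hw)

lemma edge_unique {x z : V} (h : Adj x z) {w : ℂ} (hw : w ∈ segment ℝ (Q.pos x) (Q.pos z))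
    (s : Bool) (g : ℤ × ℤ) (τ : Fin 4)
    (hw' : w ∈ openSegment ℝ (Q.pos (vert s g τ)) (Q.pos (vert s g (τ + 1)))) :
    (x = vert s g τ ∧ z = vert s g (τ + 1)) ∨ (z = vert s g τ ∧ x = vert s g (τ + 1)) := by
  have main : ∀ g' ρ, w ∈ segment ℝ (Q.pos (vert true g' ρ)) (Q.pos (vert true g' (ρ + 1))) →
      (vert true g' ρ = vert s g τ ∧ vert true g' (ρ + 1) = vert s g (τ + 1)) ∨
        (vert true g' (ρ + 1) = vert s g τ ∧ vert true g' ρ = vert s g (τ + 1)) := by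
    intro g' ρ hw
    have e1 := Q.two_tiles s g τ hw' true g' (Q.seg_sub_Tl _ _ _ _ hw)
    have e2 := Q.two_tiles s g τ hw' (!true) (nb true g' ρ) (Q.seg_sub_Tl _ _ ρ (ρ + 1)
      (by rw [vert_nb, vert_nb', segment_symm]; exact hw))
    cases s
    · simp only [Bool.true_eq_false, false_and, Bool.not_false, true_and, false_or,
        Bool.not_true, Bool.false_eq_true, or_false] at e1 e2
      have e3 : nb true g' τ = g := by rw [e1]; exact nb_nb false g τ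
      have e4 : ρ = τ := nb_inj true g' (e2.trans e3.symm)
      subst e4
      right
      rw [e1]
      exact ⟨vert_nb' false g ρ, vert_nb false g ρ⟩
    · simp only [true_and, Bool.not_true, Bool.true_eq_false, false_and, or_false,
        Bool.false_eq_true, false_or] at e1 e2
      subst e1
      have e4 : ρ = τ := nb_inj true g' e2
      subst e4
      exact Or.inl ⟨rfl, rfl⟩
  obtain ⟨g', ρ, ⟨rfl, rfl⟩ | ⟨rfl, rfl⟩⟩ := h.exists_vert
  · exact main g' ρ hw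
  · exact (main g' ρ (by rw [segment_symm]; exact hw)).symm

lemma finite_of_bounded {K : Set ℂ} (hK : Bornology.IsBounded K) :
    {v : V | Q.pos v ∈ K}.Finite := by
  obtain ⟨R, hR⟩ := hK.exists_norm_le
  have bd : ∀ f : ℂ → ℝ, (∃ p q k : ℝ, (p ≠ 0 ∨ q ≠ 0) ∧ ∀ z : ℂ, f z = p * z.re + q * z.im + k) →
      ∃ N : ℤ, ∀ z ∈ K, |f z| + 1 ≤ N := by
    rintro f ⟨p, q, k, -, hf⟩
    refine ⟨⌈|p| * R + |q| * R + |k| + 1⌉, fun z hz => le_trans ?_ (Int.le_ceil _)⟩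
    have e1 : |z.re| ≤ R := (Complex.abs_re_le_norm z).trans (hR z hz)
    have e2 : |z.im| ≤ R := (Complex.abs_im_le_norm z).trans (hR z hz)
    rw [hf]
    have e3 : |p * z.re + q * z.im + k| ≤ |p| * |z.re| + |q| * |z.im| + |k| := by
      rw [← abs_mul, ← abs_mul]
      exact (abs_add_le _ _).trans (by linarith [abs_add_le (p * z.re) (q * z.im)])
    have e4 := mul_le_mul_of_nonneg_left e1 (abs_nonneg p)
    have e5 := mul_le_mul_of_nonneg_left e2 (abs_nonneg q)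
    linarith
  obtain ⟨N1, h1⟩ := bd Q.xi Q.xi_aff
  obtain ⟨N2, h2⟩ := bd Q.eta Q.eta_aff
  refine ((Set.finite_univ (α := Bool)).prod
    ((Set.finite_Icc (-N1) N1).prod (Set.finite_Icc (-N2) N2))).subset ?_
  rintro ⟨π, m, k⟩ hv
  have e1 := h1 _ hv
  have e2 := h2 _ hv
  rw [xi_pos] at e1
  rw [eta_pos] at e2
  have a1 := Q.al_pos
  have a2 := Q.al_lt
  have a3 := Q.be_pos
  have a4 := Q.be_lt
  have e3 := abs_le.mp (le_sub_iff_add_le.mpr e1)
  have e4 := abs_le.mp (le_sub_iff_add_le.mpr e2)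
  have r1 : ((-N1 : ℤ) : ℝ) ≤ m := by push_cast; cases π <;> simp at e3 <;> linarith [e3.1]
  have r2 : (m : ℝ) ≤ N1 := by cases π <;> simp at e3 <;> linarith [e3.2]
  have r3 : ((-N2 : ℤ) : ℝ) ≤ k := by push_cast; cases π <;> simp at e4 <;> linarith [e4.1]
  have r4 : (k : ℝ) ≤ N2 := by cases π <;> simp at e4 <;> linarith [e4.2]
  exact ⟨trivial, ⟨by exact_mod_cast r1, by exact_mod_cast r2⟩,
    ⟨by exact_mod_cast r3, by exact_mod_cast r4⟩⟩

/-- The diagonals of a tile cross. -/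
lemma diag : (Q.xi Q.A) • Q.C + (1 - Q.xi Q.A) • Q.A = (Q.eta Q.B) • Q.D + (1 - Q.eta Q.B) • Q.B := by
  have := Q.Dl_pos.ne'
  apply Complex.ext <;> simp only [xi, eta, Complex.add_re, Complex.add_im, Complex.smul_re,
    Complex.smul_im, smul_eq_mul] <;> field_simp <;> simp [cr, Dl] <;> ring

end Quad

end Pool.Agent.MP_2c8680_an.H64
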