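import Pool.Agent.MP_2c8680_an.H64.Geo1

set_option autoImplicit false

open Complex Real ComplexConjugate

namespace Pool.Agent.MP_2c8680_an.H64

lemma exists_angle {z w : ℂ} (hz : z ≠ 0) (h : ‖z‖ = ‖w‖) (hne : z ≠ w) :
    ∃ t : ℝ, 0 < t ∧ t < 2 * π ∧ w = z * cexp (t * I) := by
  have h1 : ‖w / z‖ = 1 := by
    rw [norm_div, ← h, div_self (norm_ne_zero_iff.mpr hz)]
  have h2 := Complex.norm_mul_exp_arg_mul_I (w / z)
  rw [h1] at h2
  simp only [ofReal_one, one_mul] at h2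
  have h3 := toIocMod_mem_Ioc Real.two_pi_pos 0 (Complex.arg (w / z))
  have h4 : cexp ((toIocMod Real.two_pi_pos 0 (Complex.arg (w / z)) : ℝ) * I) = w / z := by
    rw [← h2, Complex.exp_eq_exp_iff_exists_int]
    refine ⟨-toIocDiv Real.two_pi_pos 0 (Complex.arg (w / z)), ?_⟩
    rw [h2, toIocMod]
    simp only [zsmul_eq_mul]
    push_cast
    ring
  refine ⟨_, h3.1, lt_of_le_of_ne (by simpa using h3.2) ?_, by rw [h4]; field_simp⟩
  intro h5
  rw [h5] at h4
  apply hne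
  push_cast at h4
  rw [Complex.exp_two_pi_mul_I] at h4
  field_simp at h4
  exact h4

lemma angle_sum {z : ℂ} {a b : ℝ} (ha0 : 0 < a) (ha1 : a < 2 * π) (hb0 : 0 < b) (hb1 : b < 2 * π)
    (h : 0 < cr (z * cexp (a * I) - z) (z * cexp (a * I) * cexp (b * I) - z * cexp (a * I))) :
    a + b < 2 * π := by
  have e : cr (z * cexp (a * I) - z) (z * cexp (a * I) * cexp (b * I) - z * cexp (a * I)) =
      (z.re ^ 2 + z.im ^ 2) *
        (4 * (Real.sin (a / 2) * Real.sin (b / 2)) * Real.sin (a / 2 + b / 2)) := by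
    have s1 : Real.sin a = 2 * Real.sin (a / 2) * Real.cos (a / 2) := by
      rw [← Real.sin_two_mul]; ring_nf
    have s2 : Real.sin b = 2 * Real.sin (b / 2) * Real.cos (b / 2) := by
      rw [← Real.sin_two_mul]; ring_nf
    have c1 : Real.cos a = 1 - 2 * Real.sin (a / 2) ^ 2 := by
      have := Real.cos_two_mul (a / 2)
      rw [show 2 * (a / 2) = a by ring] at this
      nlinarith [Real.sin_sq_add_cos_sq (a / 2)]
    have c2 : Real.cos b = 1 - 2 * Real.sin (b / 2) ^ 2 := by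
      have := Real.cos_two_mul (b / 2)
      rw [show 2 * (b / 2) = b by ring] at this
      nlinarith [Real.sin_sq_add_cos_sq (b / 2)]
    have q1 := Real.sin_sq_add_cos_sq (a / 2)
    have q2 := Real.sin_sq_add_cos_sq (b / 2)
    simp only [cr, sub_re, sub_im, mul_re, mul_im, exp_ofReal_mul_I_re, exp_ofReal_mul_I_im,
      Real.sin_add, s1, s2, c1, c2]
    set sa := Real.sin (a / 2)
    set ca := Real.cos (a / 2)
    set sb := Real.sin (b / 2)
    set cb := Real.cos (b / 2)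
    linear_combination ((z.re ^ 2 + z.im ^ 2) * (8 * sa ^ 2 * sb * cb)) * q1
  rw [e] at h
  have p1 : 0 < Real.sin (a / 2) := Real.sin_pos_of_pos_of_lt_pi (by linarith) (by linarith)
  have p2 : 0 < Real.sin (b / 2) := Real.sin_pos_of_pos_of_lt_pi (by linarith) (by linarith)
  by_contra hcon
  push Not at hcon
  have p3 : Real.sin (a / 2 + b / 2) ≤ 0 := by
    have := Real.sin_nonneg_of_nonneg_of_le_pi (x := a / 2 + b / 2 - π) (by linarith) (by linarith)
    rw [Real.sin_sub_pi] at this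
    linarith
  have p4 : 0 ≤ z.re ^ 2 + z.im ^ 2 := by positivity
  have p5 := mul_nonneg p4 (mul_nonneg (mul_pos p1 p2).le (neg_nonneg.mpr p3))
  nlinarith

/-- A cyclic quadrilateral with its centre and its four arcs. -/
structure Cyc extends Quad where
  o : ℂ
  a : ℝ
  b : ℝ
  c : ℝ
  d : ℝ
  ha : 0 < a
  hb : 0 < b
  hc : 0 < c
  hd : 0 < d
  hs : a + b + c + d = 2 * π
  hA : A - o ≠ 0
  hB : B - o = (A - o) * cexp (a * I)
  hC : C - o = (A - o) * cexp ((a + b : ℝ) * I)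
  hD : D - o = (A - o) * cexp ((a + b + c : ℝ) * I)

lemma exists_cyc (Q : Quad) (o : ℂ) (r : ℝ) (hA : dist Q.A o = r) (hB : dist Q.B o = r)
    (hC : dist Q.C o = r) (hD : dist Q.D o = r) : ∃ Z : Cyc, Z.toQuad = Q := by
  rw [Complex.dist_eq] at hA hB hC hD
  have n1 : Q.A - o ≠ Q.B - o := fun h => Q.side_ne 0 (by simp [Quad.X]; linear_combination -h)
  have n2 : Q.B - o ≠ Q.C - o := fun h => Q.side_ne 1 (by simp [Quad.X]; linear_combination -h)
  have n3 : Q.C - o ≠ Q.D - o := fun h => Q.side_ne 2 (by simp [Quad.X]; linear_combination -h)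
  have z1 : Q.A - o ≠ 0 := by
    intro h
    apply n1
    rw [h] at hA ⊢
    rw [← hA, norm_zero, norm_eq_zero] at hB
    exact hB.symm
  have hr : r ≠ 0 := by rw [← hA]; exact norm_ne_zero_iff.mpr z1
  have z2 : Q.B - o ≠ 0 := by rw [← norm_ne_zero_iff, hB]; exact hr
  have z3 : Q.C - o ≠ 0 := by rw [← norm_ne_zero_iff, hC]; exact hr
  obtain ⟨a, ha0, ha1, ha⟩ := exists_angle z1 (hA.trans hB.symm) n1
  obtain ⟨b, hb0, hb1, hb⟩ := exists_angle z2 (hB.trans hC.symm) n2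
  obtain ⟨c, hc0, hc1, hc⟩ := exists_angle z3 (hC.trans hD.symm) n3
  have hab : a + b < 2 * π := by
    apply angle_sum (z := Q.A - o) ha0 ha1 hb0 hb1
    rw [← ha, ← hb]
    simpa using Q.h1
  have hC' : Q.C - o = (Q.A - o) * cexp ((a + b : ℝ) * I) := by
    rw [hb, ha, mul_assoc, ← Complex.exp_add]; push_cast; ring_nf
  have habc : a + b + c < 2 * π := by
    apply angle_sum (z := Q.A - o) (by linarith) hab hc0 hc1
    rw [← hC', ← hc]
    have h3 := Q.h3
    simp only [cr, sub_re, sub_im] at h3 ⊢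
    linarith
  have hD' : Q.D - o = (Q.A - o) * cexp ((a + b + c : ℝ) * I) := by
    rw [hc, hC', mul_assoc, ← Complex.exp_add]; push_cast; ring_nf
  exact ⟨⟨Q, o, a, b, c, 2 * π - (a + b + c), ha0, hb0, hc0, by linarith, by ring, z1, ha, hC',
    hD'⟩, rfl⟩

namespace Cyc

variable (Z : Cyc) (θ : ℝ)

/-- Squared radius. -/
def R : ℝ := Complex.normSq (Z.A - Z.o)

lemma R_pos : 0 < Z.R := Complex.normSq_pos.mpr Z.hA

/-- Folded image of a vertex. -/
noncomputable def Fv (v : V) : ℂ := Z.R * cexp ((θ + Th Z.a Z.b Z.d v : ℝ) * I)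

/-- Height of a vertex. -/
noncomputable def H (v : V) : ℝ := Z.R * Real.cos (θ + Th Z.a Z.b Z.d v)

lemma Fv_re (v : V) : (Z.Fv θ v).re = Z.H θ v := by
  simp only [Fv, H, re_ofReal_mul, exp_ofReal_mul_I_re]

noncomputable def lam (s : Bool) (g : ℤ × ℤ) : ℂ :=
  (if s then cexp ((θ + Th Z.a Z.b Z.d (false, g) : ℝ) * I)
    else cexp (-(θ + Th Z.a Z.b Z.d (true, g) : ℝ) * I)) * conj (Z.A - Z.o)

lemma lam_ne (s : Bool) (g : ℤ × ℤ) : Z.lam θ s g ≠ 0 := by
  apply mul_ne_zero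
  · split_ifs <;> exact Complex.exp_ne_zero _
  · exact (map_ne_zero _).mpr Z.hA

lemma X_sub (τ : Fin 4) : Z.X τ - Z.o =
    (Z.A - Z.o) * cexp ((![0, Z.a, Z.a + Z.b, Z.a + Z.b + Z.c] τ : ℝ) * I) := by
  fin_cases τ
  · simp [Quad.X]
  · simpa [Quad.X] using Z.hB
  · simpa [Quad.X] using Z.hC
  · simpa [Quad.X] using Z.hD

lemma lam_vert (s : Bool) (g : ℤ × ℤ) (τ : Fin 4) :
    Z.lam θ s g * (Z.X τ - Z.o) =
      if s then Z.Fv θ (vert s g τ) else conj (Z.Fv θ (vert s g τ)) := by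
  have hR : conj (Z.A - Z.o) * (Z.A - Z.o) = (Z.R : ℂ) := by
    rw [R, Complex.normSq_eq_conj_mul_self]
  have hd : Z.d = 2 * π - Z.a - Z.b - Z.c := by linarith [Z.hs]
  rw [X_sub, lam, mul_assoc, ← mul_assoc (conj _), hR, mul_left_comm]
  cases s
  · simp only [Bool.false_eq_true, if_false, Fv, map_mul, conj_ofReal, ← Complex.exp_conj, conj_I,
      ← Complex.exp_add]
    congr 1
    rw [Complex.exp_eq_exp_iff_exists_int]
    refine ⟨if τ = 3 then 1 else 0, ?_⟩
    fin_cases τ <;> simp [Th, vert, hd] <;> ring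
  · simp only [if_true, Fv, ← Complex.exp_add]
    congr 1
    rw [Complex.exp_eq_exp_iff_exists_int]
    refine ⟨if τ = 3 then 1 else 0, ?_⟩
    fin_cases τ <;> simp [Th, vert, hd] <;> ring

/-- The height function on the tile `(s, g)`. -/
noncomputable def hT (s : Bool) (g : ℤ × ℤ) (z : ℂ) : ℝ :=
  (Z.lam θ s g * (sg s * (z - Z.tr s g) - Z.o)).re

lemma hT_vert (s : Bool) (g : ℤ × ℤ) (τ : Fin 4) :
    Z.hT θ s g (Z.pos (vert s g τ)) = Z.H θ (vert s g τ) := by
  have : sg s * (Z.pos (vert s g τ) - Z.tr s g) = Z.X τ := by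
    rw [Quad.pos_vert]; cases s <;> simp [sg]
  rw [hT, this, lam_vert, ← Fv_re]
  cases s <;> simp

lemma hT_comb (s : Bool) (g : ℤ × ℤ) (x y : ℂ) (a b : ℝ) (hab : a + b = 1) :
    Z.hT θ s g (a • x + b • y) = a * Z.hT θ s g x + b * Z.hT θ s g y := by
  have hb' : a = 1 - b := by linarith
  subst hb'
  cases s <;> simp [hT, sg] <;> ring

lemma hT_sub (s : Bool) (g : ℤ × ℤ) (x y : ℂ) :
    Z.hT θ s g x - Z.hT θ s g y = (Z.lam θ s g * (sg s * (x - y))).re := by
  simp only [hT, ← Complex.sub_re]; congr 1; ring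

lemma lam_nb (s : Bool) (g : ℤ × ℤ) (τ : Fin 4) :
    Z.lam θ (!s) (nb s g τ) * (Z.X (τ + 1) - Z.X τ) =
      -conj (Z.lam θ s g * (Z.X (τ + 1) - Z.X τ)) := by
  have e : Z.X (τ + 1) - Z.X τ = (Z.X (τ + 1) - Z.o) - (Z.X τ - Z.o) := by ring
  rw [e, mul_sub _ (Z.X (τ + 1) - Z.o), mul_sub _ (Z.X (τ + 1) - Z.o), lam_vert, lam_vert, lam_vert, lam_vert, vert_nb, vert_nb']
  cases s <;> simp

lemma H_diag (s : Bool) (g : ℤ × ℤ) :
    Z.xi Z.A * Z.H θ (vert s g 2) + (1 - Z.xi Z.A) * Z.H θ (vert s g 0) =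
      Z.eta Z.B * Z.H θ (vert s g 3) + (1 - Z.eta Z.B) * Z.H θ (vert s g 1) := by
  simp only [← hT_vert]
  rw [← hT_comb _ _ _ _ _ _ _ _ (by ring), ← hT_comb _ _ _ _ _ _ _ _ (by ring)]
  congr 1
  have := Z.diag
  simp only [Quad.pos_vert, Quad.X, Complex.real_smul] at this ⊢
  simp only [Matrix.cons_val, Matrix.cons_val_zero, Matrix.cons_val_one]
  push_cast at this ⊢
  linear_combination (sg s) * this

lemma H_add_pi (v : V) : Z.H (θ + π) v = -Z.H θ v := by
  simp only [H]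
  rw [show θ + π + Th Z.a Z.b Z.d v = θ + Th Z.a Z.b Z.d v + π by ring, Real.cos_add_pi]
  ring

/-- The combinatorial theorem in terms of the heights. -/
theorem core_H (k : ℝ) {S : Set V} (hS : S.Finite)
    (hbd : ∀ x ∈ S, ∀ z, z ∉ S → Adj x z → k < Z.H θ x ∧ Z.H θ z < k)
    (hconn : ∀ x ∈ S, ∀ z, z ∉ S → Adj x z → ∀ x' ∈ S, ∀ z', z' ∉ S → Adj x' z' →
      Path {v | Z.H θ v < k} z z')
    (s : Bool) (g : ℤ × ℤ) (hT : ∀ τ, vert s g τ ∈ S) : False := by
  obtain ⟨x1, hx1, o1, ho1, ha1, -⟩ := extreme hS ⟨_, hT 0⟩ (Th 1 0 0)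
    (up_nb 1 0 0 X_pos X_neg)
  have hR := Z.R_pos
  obtain ⟨b1, b2⟩ := hbd x1 hx1 o1 ho1 ha1
  have k1 : k / Z.R < 1 := by
    rw [div_lt_one hR]
    have := mul_le_mul_of_nonneg_left (Real.cos_le_one (θ + Th Z.a Z.b Z.d x1)) hR.le
    simp only [H] at b1
    linarith
  have k2 : -1 < k / Z.R := by
    rw [lt_div_iff₀ hR]
    have := mul_le_mul_of_nonneg_left (Real.neg_one_le_cos (θ + Th Z.a Z.b Z.d o1)) hR.le
    simp only [H] at b2
    linarith
  set ω := Real.arccos (k / Z.R) with hω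
  have hω0 : 0 < ω := Real.arccos_pos.mpr k1
  have hω1 : ω < π := Real.arccos_lt_pi.mpr k2
  have hcos : Z.R * Real.cos ω = k := by
    rw [hω, Real.cos_arccos k2.le k1.le]; field_simp
  set y : V → ℝ := fun v => toIcoMod Real.two_pi_pos 0 (θ + ω + Th Z.a Z.b Z.d v) with hy
  have hy1 : ∀ v, 0 ≤ y v ∧ y v < 2 * π := fun v => by
    simpa using toIcoMod_mem_Ico Real.two_pi_pos 0 (θ + ω + Th Z.a Z.b Z.d v)
  have hy2 : ∀ v, ∃ n : ℤ, y v = θ + ω + Th Z.a Z.b Z.d v + n * (2 * π) := fun v =>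
    ⟨-toIcoDiv Real.two_pi_pos 0 (θ + ω + Th Z.a Z.b Z.d v), by
      simp only [hy, toIcoMod, zsmul_eq_mul]; push_cast; ring⟩
  have hH : ∀ v, Z.H θ v = Z.R * Real.cos (y v - ω) := by
    intro v
    obtain ⟨n, hn⟩ := hy2 v
    rw [hn, H, show θ + ω + Th Z.a Z.b Z.d v + n * (2 * π) - ω =
      θ + Th Z.a Z.b Z.d v + n * (2 * π) by ring, Real.cos_add_int_mul_two_pi]
  have hlow : ∀ v, Z.H θ v < k → 2 * ω < y v := by
    intro v hv
    by_contra hcon
    push Not at hcon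
    have e1 : Real.cos ω ≤ Real.cos |y v - ω| :=
      Real.cos_le_cos_of_nonneg_of_le_pi (abs_nonneg _) hω1.le
        (by rw [abs_le]; constructor <;> linarith [(hy1 v).1])
    rw [Real.cos_abs] at e1
    have := mul_le_mul_of_nonneg_left e1 hR.le
    rw [hH] at hv
    linarith
  have hhigh : ∀ v, k < Z.H θ v → 0 < y v ∧ y v < 2 * ω := by
    intro v hv
    rw [hH, ← hcos] at hv
    have hv' : Real.cos ω < Real.cos (y v - ω) := lt_of_mul_lt_mul_left hv hR.le
    constructor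
    · rcases (hy1 v).1.lt_or_eq with h | h
      · exact h
      · rw [← h] at hv'; simp at hv'
    · by_contra hcon
      push Not at hcon
      have e1 : Real.cos (π - ω) ≤ Real.cos |y v - ω - π| :=
        Real.cos_le_cos_of_nonneg_of_le_pi (abs_nonneg _) (by linarith)
          (by rw [abs_le]; constructor <;> linarith [(hy1 v).2])
      rw [Real.cos_abs, Real.cos_pi_sub, Real.cos_sub_pi] at e1
      linarith
  exact core (L := 2 * ω) Z.ha Z.hb Z.hc Z.hd Z.hs hy1 hy2 (by linarith) hS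
    (fun x hx z hz ha => ⟨(hhigh x (hbd x hx z hz ha).1).1, (hhigh x (hbd x hx z hz ha).1).2,
      hlow z (hbd x hx z hz ha).2⟩)
    (fun x hx z hz ha x' hx' z' hz' ha' =>
      Path.mono (fun v hv => hlow v hv) (hconn x hx z hz ha x' hx' z' hz' ha')) s g hT

/-- Two vertices of a tile above a level are joined along the tile above that level. -/
lemma tile_conn (k : ℝ) (s : Bool) (g : ℤ × ℤ) (τ ρ : Fin 4) (h1 : k < Z.H θ (vert s g τ))
    (h2 : k < Z.H θ (vert s g ρ)) : Path {v | k < Z.H θ v} (vert s g τ) (vert s g ρ) := by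
  have st : ∀ σ : Fin 4, k < Z.H θ (vert s g σ) → k < Z.H θ (vert s g (σ + 1)) →
      Path {v | k < Z.H θ v} (vert s g σ) (vert s g (σ + 1)) :=
    fun σ a b => Path.single (adj_vert s g σ) a b
  have hd := Z.H_diag θ s g
  have a1 := Z.al_pos
  have a2 := Z.al_lt
  have a3 := Z.be_pos
  have a4 := Z.be_lt
  have d02 : k < Z.H θ (vert s g 0) → k < Z.H θ (vert s g 2) →
      Path {v | k < Z.H θ v} (vert s g 0) (vert s g 2) := by
    intro e0 e2
    by_cases e1 : k < Z.H θ (vert s g 1)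
    · exact (st 0 e0 e1).trans (st 1 e1 e2)
    · have e3 : k < Z.H θ (vert s g 3) := by
        by_contra e3
        push Not at e1 e3
        nlinarith [mul_pos a1 (sub_pos.mpr e2), mul_pos (sub_pos.mpr a2) (sub_pos.mpr e0),
          mul_nonneg a3.le (sub_nonneg.mpr e3),
          mul_nonneg (sub_pos.mpr a4).le (sub_nonneg.mpr e1)]
      exact (st 3 e3 e0).symm.trans (st 2 e2 e3).symm
  have d13 : k < Z.H θ (vert s g 1) → k < Z.H θ (vert s g 3) →
      Path {v | k < Z.H θ v} (vert s g 1) (vert s g 3) := by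
    intro e1 e3
    by_cases e2 : k < Z.H θ (vert s g 2)
    · exact (st 1 e1 e2).trans (st 2 e2 e3)
    · have e0 : k < Z.H θ (vert s g 0) := by
        by_contra e0
        push Not at e0 e2
        nlinarith [mul_pos a3 (sub_pos.mpr e3), mul_pos (sub_pos.mpr a4) (sub_pos.mpr e1),
          mul_nonneg a1.le (sub_nonneg.mpr e2),
          mul_nonneg (sub_pos.mpr a2).le (sub_nonneg.mpr e0)]
      exact (st 0 e0 e1).symm.trans (st 3 e3 e0).symm
  fin_cases τ <;> fin_cases ρ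
  · exact Path.refl _ _
  · exact st 0 h1 h2
  · exact d02 h1 h2
  · exact (st 3 h2 h1).symm
  · exact (st 0 h2 h1).symm
  · exact Path.refl _ _
  · exact st 1 h1 h2
  · exact d13 h1 h2
  · exact (d02 h2 h1).symm
  · exact (st 1 h2 h1).symm
  · exact Path.refl _ _
  · exact st 2 h1 h2
  · exact st 3 h1 h2
  · exact (d13 h2 h1).symm
  · exact (st 2 h2 h1).symm
  · exact Path.refl _ _

lemma tile_conn' (k : ℝ) (s : Bool) (g : ℤ × ℤ) (τ ρ : Fin 4) (h1 : Z.H θ (vert s g τ) < k)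
    (h2 : Z.H θ (vert s g ρ) < k) : Path {v | Z.H θ v < k} (vert s g τ) (vert s g ρ) := by
  have := Z.tile_conn (θ + π) (-k) s g τ ρ (by rw [H_add_pi]; linarith)
    (by rw [H_add_pi]; linarith)
  refine this.mono (fun v hv => ?_)
  simp only [Set.mem_ofPred_eq, H_add_pi] at hv ⊢
  linarith

/-- The starting angle can be chosen so that a given direction is level. -/
lemma exists_theta (s : Bool) (g : ℤ × ℤ) (w : ℂ) : ∃ θ : ℝ, (Z.lam θ s g * w).re = 0 := by
  set u := conj (Z.A - Z.o) * w with hu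
  have h := Complex.norm_mul_exp_arg_mul_I u
  cases s
  · refine ⟨Complex.arg u - π / 2 - Th Z.a Z.b Z.d (true, g), ?_⟩
    simp only [lam, Bool.false_eq_true, if_false]
    rw [mul_assoc, ← hu, ← h, mul_left_comm, ← Complex.exp_add, h]
    have : -((Complex.arg u - π / 2 - Th Z.a Z.b Z.d (true, g) + Th Z.a Z.b Z.d (true, g) : ℝ) : ℂ)
        * I + (Complex.arg u : ℂ) * I = ((π / 2 : ℝ) : ℂ) * I := by push_cast; ring
    rw [this, re_ofReal_mul, exp_ofReal_mul_I_re, Real.cos_pi_div_two, mul_zero]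
  · refine ⟨π / 2 - Complex.arg u - Th Z.a Z.b Z.d (false, g), ?_⟩
    simp only [lam, if_true]
    rw [mul_assoc, ← hu, ← h, mul_left_comm, ← Complex.exp_add, h]
    have : ((π / 2 - Complex.arg u - Th Z.a Z.b Z.d (false, g) + Th Z.a Z.b Z.d (false, g) : ℝ) : ℂ)
        * I + (Complex.arg u : ℂ) * I = ((π / 2 : ℝ) : ℂ) * I := by push_cast; ring
    rw [this, re_ofReal_mul, exp_ofReal_mul_I_re, Real.cos_pi_div_two, mul_zero]

end Cyc

end Pool.Agent.MP_2c8680_an.H64
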