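import Pool.Agent.MP_2c8680_an.H64.Geo2

set_option autoImplicit false

open Complex Real ComplexConjugate

namespace Pool.Agent.MP_2c8680_an.H64

lemma mid_mem (x y : ℂ) : (1 / 2 : ℝ) • x + (1 / 2 : ℝ) • y ∈ openSegment ℝ x y :=
  ⟨1 / 2, 1 / 2, by norm_num, by norm_num, by norm_num, rfl⟩

lemma eq_zero_of_re {l e v : ℂ} (h1 : (l * e).re = 0) (h2 : (l * v).re = 0) (h3 : cr e v ≠ 0) :
    l = 0 := by
  simp only [mul_re, cr] at h1 h2 h3
  apply Complex.ext
  · apply mul_left_cancel₀ h3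
    simp only [zero_re, mul_zero]
    linear_combination v.im * h1 - e.im * h2
  · apply mul_left_cancel₀ h3
    simp only [zero_im, mul_zero]
    linear_combination v.re * h1 - e.re * h2

lemma refr_cr {e d d' : ℂ} {l : ℝ} (h : d' * conj e = (l : ℂ) * (-(e * conj d))) :
    cr e d' = l * cr e d := by
  have := congrArg Complex.im h
  simp at this
  simp only [cr]
  linarith

lemma refr_level {e d d' m m' : ℂ} {l : ℝ} (he : e ≠ 0)
    (h : d' * conj e = (l : ℂ) * (-(e * conj d))) (hm : m' * e = -conj (m * e))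
    (h0 : (m * d).re = 0) : (m' * d').re = 0 := by
  have he' : conj e ≠ 0 := (map_ne_zero _).mpr he
  have : m' * d' = (l : ℂ) * conj (m * d) := by
    apply mul_right_cancel₀ (mul_ne_zero he he')
    simp only [map_mul] at hm ⊢
    linear_combination (d' * conj e) * hm - (conj m * conj e) * h
  rw [this, re_ofReal_mul, conj_re, h0, mul_zero]

namespace Cyc

variable (Z : Cyc)

lemma mem_Tl {x y : ℂ} {s : Bool} {g : ℤ × ℤ} (h : openSegment ℝ x y ⊆ interior (Z.Tl s g)) :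
    x ∈ Z.Tl s g ∧ y ∈ Z.Tl s g := by
  have : segment ℝ x y ⊆ Z.Tl s g := segment_subset_closure_openSegment.trans
    (closure_minimal (h.trans interior_subset) (Z.isClosed_Tl s g))
  exact ⟨this (left_mem_segment _ _ _), this (right_mem_segment _ _ _)⟩

lemma crossing {x y z : ℂ} {s : Bool} {g : ℤ × ℤ} {τ : Fin 4} {l : ℝ} (hl : 0 < l)
    (hy : y ∈ openSegment ℝ (Z.pos (vert s g τ)) (Z.pos (vert s g (τ + 1))))
    (h1 : openSegment ℝ x y ⊆ interior (Z.Tl s g)) (h2 : openSegment ℝ y z ⊆ interior (Z.Tl s g))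
    (h : (z - y) * conj (Z.X (τ + 1) - Z.X τ) =
      (l : ℂ) * (-((Z.X (τ + 1) - Z.X τ) * conj (y - x)))) : False := by
  have e0 := Z.sd_seg s g τ y (openSegment_subset_segment _ _ _ hy)
  have e1 := Z.sd_pos s g τ _ (h1 (mid_mem x y))
  have e2 := Z.sd_pos s g τ _ (h2 (mid_mem y z))
  have e3 := refr_cr h
  simp only [Quad.sd, Quad.pos_sub] at e0 e1 e2
  generalize Z.X (τ + 1) - Z.X τ = e at *
  generalize Z.pos (vert s g τ) = w at *
  cases s <;> simp [cr, sg] at e0 e1 e2 e3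
  · have : 0 < e.re * (y.im - x.im) - e.im * (y.re - x.re) := by linarith
    nlinarith [mul_pos hl this]
  · have : 0 < -(e.re * (y.im - x.im) - e.im * (y.re - x.re)) := by linarith
    nlinarith [mul_pos hl this]

theorem traj (n : ℕ) (hn : 0 < n) (p : ℕ → ℂ) (hper : ∀ i, p (i + n) = p i)
    (ts : ℕ → Bool) (tg : ℕ → ℤ × ℤ)
    (hT : ∀ i, openSegment ℝ (p i) (p (i + 1)) ⊆ interior (Z.Tl (ts i) (tg i)))
    (hE : ∀ i, ∃ (s : Bool) (g : ℤ × ℤ) (τ : Fin 4),
      p (i + 1) ∈ openSegment ℝ (Z.pos (vert s g τ)) (Z.pos (vert s g (τ + 1))) ∧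
      ∃ l : ℝ, 0 < l ∧ (p (i + 2) - p (i + 1)) * conj (Z.X (τ + 1) - Z.X τ) =
        (l : ℂ) * (-((Z.X (τ + 1) - Z.X τ) * conj (p (i + 1) - p i))))
    (s : Bool) (g : ℤ × ℤ) :
    ¬ (Z.Tl s g ⊆ {z : ℂ | z ∉ (⋃ i : ℕ, segment ℝ (p i) (p (i + 1))) ∧
      Bornology.IsBounded (connectedComponentIn (⋃ i : ℕ, segment ℝ (p i) (p (i + 1)))ᶜ z)}) := by
  intro hsub
  -- the successive tiles are neighbours
  have step : ∀ i, ∃ τ : Fin 4,
      p (i + 1) ∈ openSegment ℝ (Z.pos (vert (ts i) (tg i) τ))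
        (Z.pos (vert (ts i) (tg i) (τ + 1))) ∧
      ts (i + 1) = (!ts i) ∧ tg (i + 1) = nb (ts i) (tg i) τ ∧
      ∃ l : ℝ, 0 < l ∧ (p (i + 2) - p (i + 1)) * conj (Z.X (τ + 1) - Z.X τ) =
        (l : ℂ) * (-((Z.X (τ + 1) - Z.X τ) * conj (p (i + 1) - p i))) := by
    intro i
    obtain ⟨s, g, τ, hp, l, hl, hr⟩ := hE i
    have hp' : p (i + 1) ∈ openSegment ℝ (Z.pos (vert (!s) (nb s g τ) τ))
        (Z.pos (vert (!s) (nb s g τ) (τ + 1))) := by
      rw [vert_nb, vert_nb', openSegment_symm]; exact hp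
    have m1 := (Z.mem_Tl (hT i)).2
    have m2 := (Z.mem_Tl (hT (i + 1))).1
    have t1 := hT i
    have t2 := hT (i + 1)
    rcases Z.two_tiles s g τ hp _ _ m1 with ⟨a1, a2⟩ | ⟨a1, a2⟩ <;>
      rcases Z.two_tiles s g τ hp _ _ m2 with ⟨b1, b2⟩ | ⟨b1, b2⟩
    · rw [a1, a2] at t1
      rw [b1, b2] at t2
      exact (Z.crossing hl hp t1 t2 hr).elim
    · exact ⟨τ, by rw [a1, a2]; exact hp, by rw [a1, b1], by rw [a1, a2, b2], l, hl, hr⟩
    · exact ⟨τ, by rw [a1, a2]; exact hp', by rw [a1, b1]; simp, by rw [a1, a2, b2, nb_nb],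
        l, hl, hr⟩
    · rw [a1, a2] at t1
      rw [b1, b2] at t2
      exact (Z.crossing hl hp' t1 t2 hr).elim
  choose τ hτ1 hτ2 hτ3 hτ4 using step
  obtain ⟨θ, hθ⟩ := Z.exists_theta (ts 0) (tg 0) (sg (ts 0) * (p 1 - p 0))
  set k := Z.hT θ (ts 0) (tg 0) (p 0) with hk
  -- the height is constant along the trajectory
  have inv : ∀ i, Z.hT θ (ts i) (tg i) (p i) = k ∧ Z.hT θ (ts i) (tg i) (p (i + 1)) = k := by
    intro i
    induction i with
    | zero =>
      refine ⟨rfl, ?_⟩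
      have := Z.hT_sub θ (ts 0) (tg 0) (p 1) (p 0)
      rw [hθ] at this
      simp only [zero_add]
      linarith
    | succ i ih =>
      have e1 : Z.hT θ (ts (i + 1)) (tg (i + 1)) (p (i + 1)) = k := by
        rw [← ih.2]
        obtain ⟨a, b, ha, hb, hab, hp⟩ := hτ1 i
        rw [← hp, Z.hT_comb θ _ _ _ _ a b hab, Z.hT_comb θ _ _ _ _ a b hab, hT_vert, hT_vert,
          hτ2, hτ3]
        congr 2
        · rw [← vert_nb', hT_vert]
        · rw [← vert_nb, hT_vert]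
      refine ⟨e1, ?_⟩
      obtain ⟨l, hl, hr⟩ := hτ4 i
      have e2 := Z.hT_sub θ (ts i) (tg i) (p (i + 1)) (p i)
      rw [ih.1, ih.2, sub_self] at e2
      have e3 := Z.hT_sub θ (ts (i + 1)) (tg (i + 1)) (p (i + 1 + 1)) (p (i + 1))
      have e4 : (Z.lam θ (ts i) (tg i) * (p (i + 1) - p i)).re = 0 := by
        cases h : ts i <;> simp only [h, sg] at e2 <;> simp at e2 ⊢ <;> linarith
      have e5 := refr_level (Z.side_ne (τ i)) hr (Z.lam_nb θ (ts i) (tg i) (τ i)) e4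
      rw [← hτ3, ← hτ2] at e5
      have e6 : (Z.lam θ (ts (i + 1)) (tg (i + 1)) *
          (sg (ts (i + 1)) * (p (i + 1 + 1) - p (i + 1)))).re = 0 := by
        cases h : ts (i + 1) <;> simp only [h, sg] at e5 ⊢ <;> simp at e5 ⊢ <;> linarith
      linarith
  -- the two ends of each crossed edge
  have ends : ∀ i, ∃ hi lo : V, k < Z.H θ hi ∧ Z.H θ lo < k ∧
      (∃ ρ, hi = vert (ts i) (tg i) ρ) ∧ (∃ ρ, hi = vert (ts (i + 1)) (tg (i + 1)) ρ) ∧
      (∃ ρ, lo = vert (ts i) (tg i) ρ) ∧ (∃ ρ, lo = vert (ts (i + 1)) (tg (i + 1)) ρ) ∧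
      ∀ x z, Adj x z → p (i + 1) ∈ segment ℝ (Z.pos x) (Z.pos z) →
        (x = hi ∧ z = lo) ∨ (x = lo ∧ z = hi) := by
    intro i
    have u := fun x z (h : Adj x z) (hw : p (i + 1) ∈ segment ℝ (Z.pos x) (Z.pos z)) =>
      Z.edge_unique h hw _ _ _ (hτ1 i)
    have n1 : vert (ts i) (tg i) (τ i) = vert (ts (i + 1)) (tg (i + 1)) (τ i + 1) := by
      rw [hτ2, hτ3, vert_nb']
    have n2 : vert (ts i) (tg i) (τ i + 1) = vert (ts (i + 1)) (tg (i + 1)) (τ i) := by
      rw [hτ2, hτ3, vert_nb]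
    obtain ⟨a, b, ha, hb, hab, hp⟩ := hτ1 i
    have e1 := (inv i).2
    rw [← hp, Z.hT_comb θ _ _ _ _ a b hab, hT_vert, hT_vert] at e1
    have hb' : b = 1 - a := by linarith
    rcases lt_trichotomy k (Z.H θ (vert (ts i) (tg i) (τ i))) with h | h | h
    · refine ⟨_, vert (ts i) (tg i) (τ i + 1), h, ?_, ⟨_, rfl⟩, ⟨_, n1⟩, ⟨_, rfl⟩, ⟨_, n2⟩,
        fun x z hxz hw => ?_⟩
      · by_contra hcon
        push Not at hcon
        have e2 : a * k + b * k = k := by rw [← add_mul, hab, one_mul]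
        linarith [mul_pos ha (sub_pos.mpr h), mul_nonneg hb.le (sub_nonneg.mpr hcon)]
      · rcases u x z hxz hw with h | h
        · exact Or.inl h
        · exact Or.inr h.symm
    · exfalso
      have h' : Z.H θ (vert (ts i) (tg i) (τ i + 1)) = k := by
        apply mul_left_cancel₀ hb.ne'
        rw [← h] at e1
        rw [hb'] at e1 ⊢
        linarith
      have f1 := Z.hT_sub θ (ts i) (tg i) (Z.pos (vert (ts i) (tg i) (τ i + 1)))
        (Z.pos (vert (ts i) (tg i) (τ i)))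
      rw [hT_vert, hT_vert, h', ← h, sub_self, ← mul_assoc] at f1
      have f2 := Z.hT_sub θ (ts i) (tg i) ((1 / 2 : ℝ) • p i + (1 / 2 : ℝ) • p (i + 1))
        (Z.pos (vert (ts i) (tg i) (τ i)))
      rw [hT_vert, Z.hT_comb θ _ _ _ _ _ _ (by norm_num), (inv i).1, (inv i).2, ← h,
        ← mul_assoc] at f2
      have f3 := Z.sd_pos _ _ (τ i) _ (hT i (mid_mem _ _))
      have f4 := eq_zero_of_re f1.symm (by rw [← f2]; ring) f3.ne'
      rcases mul_eq_zero.mp f4 with f5 | f5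
      · exact Z.lam_ne _ _ _ f5
      · cases h : ts i <;> simp [h, sg] at f5
    · refine ⟨vert (ts i) (tg i) (τ i + 1), _, ?_, h, ⟨_, rfl⟩, ⟨_, n2⟩, ⟨_, rfl⟩, ⟨_, n1⟩,
        fun x z hxz hw => ?_⟩
      · by_contra hcon
        push Not at hcon
        have e2 : a * k + b * k = k := by rw [← add_mul, hab, one_mul]
        linarith [mul_pos ha (sub_pos.mpr h), mul_nonneg hb.le (sub_nonneg.mpr hcon)]
      · rcases u x z hxz hw with h | h
        · exact Or.inr h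
        · exact Or.inl h.symm
  choose hi lo hhi hlo hi1 hi2 lo1 lo2 huniq using ends
  have chi : ∀ i, Path {v | k < Z.H θ v} (hi 0) (hi i) := by
    intro i
    induction i with
    | zero => exact Path.refl _ _
    | succ i ih =>
      obtain ⟨ρ, h1⟩ := hi2 i
      obtain ⟨ρ', h2⟩ := hi1 (i + 1)
      refine ih.trans ?_
      rw [h1, h2]
      exact Z.tile_conn θ k _ _ _ _ (h1 ▸ hhi i) (h2 ▸ hhi (i + 1))
  have clo : ∀ i, Path {v | Z.H θ v < k} (lo 0) (lo i) := by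
    intro i
    induction i with
    | zero => exact Path.refl _ _
    | succ i ih =>
      obtain ⟨ρ, h1⟩ := lo2 i
      obtain ⟨ρ', h2⟩ := lo1 (i + 1)
      refine ih.trans ?_
      rw [h1, h2]
      exact Z.tile_conn' θ k _ _ _ _ (h1 ▸ hlo i) (h2 ▸ hlo (i + 1))
  -- the vertices joined to the enclosed tile
  set γ : Set ℂ := ⋃ i : ℕ, segment ℝ (p i) (p (i + 1)) with hγ
  set Free : V → V → Prop := fun x z => Adj x z ∧ ∀ i, p i ∉ segment ℝ (Z.pos x) (Z.pos z)
    with hFree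
  set S : Set V := {v | Relation.ReflTransGen Free (vert s g 0) v} with hS
  have pγ : ∀ i, p i ∈ γ := fun i => Set.mem_iUnion.mpr ⟨i, left_mem_segment _ _ _⟩
  have hv0 := hsub (Z.seg_sub_Tl s g 0 0 (left_mem_segment _ _ _))
  have hScomp : ∀ v ∈ S, Z.pos v ∈ connectedComponentIn γᶜ (Z.pos (vert s g 0)) := by
    intro v hv
    induction hv with
    | refl => exact mem_connectedComponentIn hv0.1
    | @tail u v _ h2 ih =>
      have hseg : segment ℝ (Z.pos u) (Z.pos v) ⊆ γᶜ := by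
        intro w hw hwγ
        obtain ⟨i, hi⟩ := Set.mem_iUnion.mp hwγ
        rw [← insert_endpoints_openSegment] at hi
        rcases hi with rfl | rfl | hi
        · exact h2.2 _ hw
        · exact h2.2 _ hw
        · exact Z.edge_not_int h2.1 hw _ _ (hT i hi)
      rw [connectedComponentIn_eq ih]
      exact (convex_segment _ _).isPreconnected.subset_connectedComponentIn
        (left_mem_segment _ _ _) hseg (right_mem_segment _ _ _)
  have hSf : S.Finite := (Z.finite_of_bounded hv0.2).subset hScomp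
  have hcross : ∀ x z, Adj x z → ¬ Free x z →
      ∃ j, (x = hi j ∧ z = lo j) ∨ (x = lo j ∧ z = hi j) := by
    intro x z hxz hnf
    have : ∃ i, p i ∈ segment ℝ (Z.pos x) (Z.pos z) := by
      by_contra hcon
      push Not at hcon
      exact hnf ⟨hxz, hcon⟩
    obtain ⟨i, hi⟩ := this
    refine ⟨i + n - 1, huniq _ x z hxz ?_⟩
    rw [show i + n - 1 + 1 = i + n by omega, hper]
    exact hi
  have hbdry : ∀ x ∈ S, ∀ z, z ∉ S → Adj x z →
      ∃ j, (x = hi j ∧ z = lo j) ∨ (x = lo j ∧ z = hi j) :=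
    fun x hx z hz hxz => hcross x z hxz (fun hf => hz (Relation.ReflTransGen.tail hx hf))
  have up : ∀ u v, Path {v | k < Z.H θ v} u v → u ∈ S → v ∈ S := by
    intro u v h hu
    induction h with
    | refl => exact hu
    | @tail v w _ h2 ih =>
      by_contra hcon
      obtain ⟨j, ⟨_, rfl⟩ | ⟨rfl, _⟩⟩ := hbdry v ih w hcon h2.1
      · exact lt_asymm (hlo j) h2.2.2
      · exact lt_asymm (hlo j) h2.2.1
  have dn : ∀ u v, Path {v | Z.H θ v < k} u v → u ∈ S → v ∈ S := by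
    intro u v h hu
    induction h with
    | refl => exact hu
    | @tail v w _ h2 ih =>
      by_contra hcon
      obtain ⟨j, ⟨rfl, _⟩ | ⟨_, rfl⟩⟩ := hbdry v ih w hcon h2.1
      · exact lt_asymm (hhi j) h2.2.1
      · exact lt_asymm (hhi j) h2.2.2
  have hfree : ∀ ρ, Free (vert s g ρ) (vert s g (ρ + 1)) := fun ρ =>
    ⟨adj_vert s g ρ, fun i hi => (hsub (Z.seg_sub_Tl s g _ _ hi)).1 (pγ i)⟩
  have hall : ∀ ρ, vert s g ρ ∈ S := by
    have a0 : vert s g 0 ∈ S := Relation.ReflTransGen.refl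
    have a1 : vert s g 1 ∈ S := Relation.ReflTransGen.tail a0 (hfree 0)
    have a2 : vert s g 2 ∈ S := Relation.ReflTransGen.tail a1 (hfree 1)
    have a3 : vert s g 3 ∈ S := Relation.ReflTransGen.tail a2 (hfree 2)
    intro ρ
    fin_cases ρ
    exacts [a0, a1, a2, a3]
  by_cases h0 : lo 0 ∈ S
  · have hb : ∀ x ∈ S, ∀ z, z ∉ S → Adj x z → ∃ j, x = lo j ∧ z = hi j := by
      intro x hx z hz hxz
      obtain ⟨j, h | h⟩ := hbdry x hx z hz hxz
      · exact (hz (h.2 ▸ dn _ _ (clo j) h0)).elim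
      · exact ⟨j, h⟩
    refine Z.core_H (θ + π) (-k) hSf (fun x hx z hz hxz => ?_)
      (fun x hx z hz hxz x' hx' z' hz' hxz' => ?_) s g hall
    · obtain ⟨j, rfl, rfl⟩ := hb x hx z hz hxz
      rw [H_add_pi, H_add_pi]
      constructor <;> linarith [hlo j, hhi j]
    · obtain ⟨j, -, rfl⟩ := hb x hx z hz hxz
      obtain ⟨j', -, rfl⟩ := hb x' hx' z' hz' hxz'
      refine ((chi j).symm.trans (chi j')).mono (fun v hv => ?_)
      simp only [Set.mem_ofPred_eq, H_add_pi] at hv ⊢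
      linarith
  · have hb : ∀ x ∈ S, ∀ z, z ∉ S → Adj x z → ∃ j, x = hi j ∧ z = lo j := by
      intro x hx z hz hxz
      obtain ⟨j, h | h⟩ := hbdry x hx z hz hxz
      · exact ⟨j, h⟩
      · exact (h0 (dn _ _ (clo j).symm (h.1 ▸ hx))).elim
    refine Z.core_H θ k hSf (fun x hx z hz hxz => ?_)
      (fun x hx z hz hxz x' hx' z' hz' hxz' => ?_) s g hall
    · obtain ⟨j, rfl, rfl⟩ := hb x hx z hz hxz
      exact ⟨hhi j, hlo j⟩
    · obtain ⟨j, -, rfl⟩ := hb x hx z hz hxz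
      obtain ⟨j', -, rfl⟩ := hb x' hx' z' hz' hxz'
      exact (clo j).symm.trans (clo j')

end Cyc

lemma exists_sg {s : ℂ} (h : s = 1 ∨ s = -1) : ∃ b : Bool, s = sg b := by
  rcases h with h | h
  · exact ⟨true, h⟩
  · exact ⟨false, h⟩

lemma cr_eq (z w : ℂ) : (conj z * w).im = cr z w := by
  simp [cr]; ring

end Pool.Agent.MP_2c8680_an.H64
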